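import Pool.Agent.Helper6.NS.Sums

/-! Head and tail of the left block. -/

namespace Helper6.NS
open Finset Helper23.NS

variable {q : ℕ} {g : ℝ}

lemma sum_half_le {f : ℕ → ℝ} (hf : ∀ n, 0 ≤ f n) {B : ℝ} (hB : ∀ N, ∑ i ∈ range N, f i ≤ B)
    (N : ℕ) : ∑ j ∈ range N, f (j / 2) ≤ 2 * B := by
  have key : ∀ M : ℕ, ∑ j ∈ range (2 * M), f (j / 2) = 2 * ∑ i ∈ range M, f i := by
    intro M
    induction M with
    | zero => simp
    | succ M ih =>
      rw [show 2 * (M + 1) = 2 * M + 1 + 1 by ring, sum_range_succ, sum_range_succ, ih,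
        sum_range_succ]
      have a1 : (2 * M) / 2 = M := by omega
      have a3 : (2 * M + 1) / 2 = M := by omega
      rw [a1, a3]; ring
  calc ∑ j ∈ range N, f (j / 2) ≤ ∑ j ∈ range (2 * N), f (j / 2) :=
        sum_le_sum_of_subset_of_nonneg (range_subset_range.2 (by omega)) (fun _ _ _ => hf _)
    _ = 2 * ∑ i ∈ range N, f i := key N
    _ ≤ 2 * B := by linarith [hB N]

lemma H1_eq (k : ℕ) : H1 y q k = F1 y q (k / 2) * mid y q q ^ (k % 2) := rfl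
lemma H2_eq (k : ℕ) : H2 y q k = F2 y q (k / 2) * mid y q q ^ (k % 2) := rfl
lemma F1_zero : F1 y q 0 = 1 := rfl
lemma F2_zero : F2 y q 0 = 0 := rfl

lemma Ck_nonneg (hg : 0 ≤ g) (hr : ∀ k, g ^ 2 * P11 y q (k + 1) < 1) (k : ℕ) :
    0 ≤ Ck q g k := by
  unfold Ck
  have h1 := Af_nonneg hg (H1_nonneg (q := q) (k + 2)) (hr (k + 1))
  have h2 := Af_nonneg hg (H1_nonneg (q := q) (k + 1)) (hr k)
  have h3 := P12_nonneg (q := q) (k + 1)
  have h4 := H2_nonneg (q := q) (k + 1)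
  positivity

lemma sum_Ck_le (hg : 0 ≤ g) {p1 p2 p3 p4 e1 e2 e3 e4 a1 a2 b1 b2 b3 b4 m lam : ℝ}
    (hP1 : P11 y q 1 ≤ p1) (hP2 : P11 y q 2 ≤ p2) (hP3 : P11 y q 3 ≤ p3)
    (hP4 : ∀ j, P11 y q (4 + j) ≤ p4)
    (hE1 : P12 y q 1 ≤ e1) (hE2 : P12 y q 2 ≤ e2) (hE3 : P12 y q 3 ≤ e3)
    (hE4 : ∀ j, P12 y q (4 + j) ≤ lam ^ j * e4)
    (hA1 : F1 y q 1 ≤ a1) (hA2 : ∀ j, F1 y q (2 + j) ≤ a2)
    (hB1 : F2 y q 1 ≤ b1) (hB2 : F2 y q 2 ≤ b2) (hB3 : F2 y q 3 ≤ b3)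
    (hB4 : ∀ j, F2 y q (4 + j) ≤ lam ^ j * b4)
    (hm : mid y q q ≤ m) (hm1 : m ≤ 1) (hl0 : 0 ≤ lam) (hl1 : lam < 1)
    (hr1 : g ^ 2 * p1 < 1) (hr2 : g ^ 2 * p2 < 1) (hr3 : g ^ 2 * p3 < 1) (hr4 : g ^ 2 * p4 < 1)
    (N : ℕ) :
    ∑ k ∈ range N, Ck q g k ≤
      Af g p2 a1 * (g ^ 2 * e1 * Af g p1 m)
      + Af g p3 (a1 * m) * (g ^ 2 * e2 * Af g p2 a1 + g * b1)
      + Af g p4 a2 * (g ^ 2 * e3 * Af g p3 (a1 * m) + g * (b1 * m))
      + (g ^ 2 * Af g p4 a2 * Af g p4 a2 * (e4 * (1 / (1 - lam)))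
        + g * Af g p4 a2 * (2 * (b2 + b3 + b4 * (1 / (1 - lam))))) := by
  have hm0 : 0 ≤ mid y q q := mid_nonneg _ _
  have hmm : 0 ≤ m := hm0.trans hm
  have hmid1 : mid y q q ≤ 1 := hm.trans hm1
  have hH11 : H1 y q 1 ≤ m := by rw [H1_eq]; simpa [F1_zero] using hm
  have hH12 : H1 y q 2 ≤ a1 := by rw [H1_eq]; simpa using hA1
  have ha1 : 0 ≤ a1 := (F1_nonneg 1).trans hA1
  have hb1 : 0 ≤ b1 := (F2_nonneg 1).trans hB1
  have ha2 : 0 ≤ a2 := (F1_nonneg 2).trans (hA2 0)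
  have he4 : 0 ≤ e4 := by simpa using (P12_nonneg (q := q) 4).trans (hE4 0)
  have hb4 : 0 ≤ b4 := by simpa using (F2_nonneg (q := q) 4).trans (hB4 0)
  have hH13 : H1 y q 3 ≤ a1 * m := by
    rw [H1_eq]; simpa using mul_le_mul hA1 hm hm0 ha1
  have hH14 : ∀ j, H1 y q (4 + j) ≤ a2 := by
    intro j
    rw [H1_eq, show (4 + j) / 2 = 2 + j / 2 by omega]
    calc F1 y q (2 + j / 2) * mid y q q ^ ((4 + j) % 2) ≤ a2 * 1 :=
          mul_le_mul (hA2 _) (pow_le_one₀ hm0 hmid1) (by positivity) ha2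
      _ = a2 := mul_one _
  have hH21 : H2 y q 1 = 0 := by rw [H2_eq]; simp [F2_zero]
  have hH22 : H2 y q 2 ≤ b1 := by rw [H2_eq]; simpa using hB1
  have hH23 : H2 y q 3 ≤ b1 * m := by rw [H2_eq]; simpa using mul_le_mul hB1 hm hm0 hb1
  have hH24 : ∀ j, H2 y q (4 + j) ≤ F2 y q (2 + j / 2) := by
    intro j
    rw [H2_eq, show (4 + j) / 2 = 2 + j / 2 by omega]
    calc F2 y q (2 + j / 2) * mid y q q ^ ((4 + j) % 2) ≤ F2 y q (2 + j / 2) * 1 :=
          mul_le_mul_of_nonneg_left (pow_le_one₀ hm0 hmid1) (F2_nonneg _)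
      _ = _ := mul_one _
  have hr : ∀ k, g ^ 2 * P11 y q (k + 1) < 1 := by
    intro k
    have hgg : 0 ≤ g ^ 2 := by positivity
    rcases k with _ | _ | _ | k
    · exact lt_of_le_of_lt (mul_le_mul_of_nonneg_left hP1 hgg) hr1
    · exact lt_of_le_of_lt (mul_le_mul_of_nonneg_left hP2 hgg) hr2
    · exact lt_of_le_of_lt (mul_le_mul_of_nonneg_left hP3 hgg) hr3
    · rw [show k + 1 + 1 + 1 + 1 = 4 + k by ring]
      exact lt_of_le_of_lt (mul_le_mul_of_nonneg_left (hP4 k) hgg) hr4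
  have A1 : Af g (P11 y q 1) (H1 y q 1) ≤ Af g p1 m := Af_mono hg (H1_nonneg _) hP1 hH11 hr1
  have A2 : Af g (P11 y q 2) (H1 y q 2) ≤ Af g p2 a1 := Af_mono hg (H1_nonneg _) hP2 hH12 hr2
  have A3 : Af g (P11 y q 3) (H1 y q 3) ≤ Af g p3 (a1 * m) :=
    Af_mono hg (H1_nonneg _) hP3 hH13 hr3
  have A4 : ∀ j, Af g (P11 y q (4 + j)) (H1 y q (4 + j)) ≤ Af g p4 a2 := fun j =>
    Af_mono hg (H1_nonneg _) (hP4 j) (hH14 j) hr4
  have n1 : 0 ≤ Af g (P11 y q 1) (H1 y q 1) := Af_nonneg hg (H1_nonneg _) (hr 0)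
  have n2 : 0 ≤ Af g (P11 y q 2) (H1 y q 2) := Af_nonneg hg (H1_nonneg _) (hr 1)
  have n3 : 0 ≤ Af g (P11 y q 3) (H1 y q 3) := Af_nonneg hg (H1_nonneg _) (hr 2)
  have n4 : ∀ j, 0 ≤ Af g (P11 y q (4 + j)) (H1 y q (4 + j)) := fun j => by
    have := hr (3 + j)
    rw [show 3 + j + 1 = 4 + j by ring] at this
    exact Af_nonneg hg (H1_nonneg _) this
  have q1 := P12_nonneg (q := q) 1
  have q2 := P12_nonneg (q := q) 2
  have q3 := P12_nonneg (q := q) 3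
  have C0 : Ck q g 0 ≤ Af g p2 a1 * (g ^ 2 * e1 * Af g p1 m) := by
    unfold Ck
    simp only [zero_add]
    rw [hH21, mul_zero, add_zero]
    have t1 : g ^ 2 * P12 y q 1 * Af g (P11 y q 1) (H1 y q 1) ≤ g ^ 2 * e1 * Af g p1 m := by
      gcongr
      exact mul_nonneg (by positivity) (q1.trans hE1)
    exact mul_le_mul A2 t1 (by positivity) (n2.trans A2)
  have C1 : Ck q g 1 ≤ Af g p3 (a1 * m) * (g ^ 2 * e2 * Af g p2 a1 + g * b1) := by
    unfold Ck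
    have t1 : g ^ 2 * P12 y q 2 * Af g (P11 y q 2) (H1 y q 2) + g * H2 y q 2
        ≤ g ^ 2 * e2 * Af g p2 a1 + g * b1 := by
      gcongr
      exact mul_nonneg (by positivity) (q2.trans hE2)
    have := H2_nonneg (q := q) 2
    exact mul_le_mul A3 t1 (by positivity) (n3.trans A3)
  have C2 : Ck q g 2 ≤ Af g p4 a2 * (g ^ 2 * e3 * Af g p3 (a1 * m) + g * (b1 * m)) := by
    unfold Ck
    have t1 : g ^ 2 * P12 y q 3 * Af g (P11 y q 3) (H1 y q 3) + g * H2 y q 3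
        ≤ g ^ 2 * e3 * Af g p3 (a1 * m) + g * (b1 * m) := by
      gcongr
      exact mul_nonneg (by positivity) (q3.trans hE3)
    have := H2_nonneg (q := q) 3
    exact mul_le_mul (A4 0) t1 (by positivity) ((n4 0).trans (A4 0))
  have hA : 0 ≤ Af g p4 a2 := (n4 0).trans (A4 0)
  have C3 : ∀ j, Ck q g (3 + j) ≤ g ^ 2 * Af g p4 a2 * Af g p4 a2 * (e4 * lam ^ j)
      + g * Af g p4 a2 * F2 y q (2 + j / 2) := by
    intro j
    unfold Ck
    rw [show 3 + j + 2 = 4 + (j + 1) by ring, show 3 + j + 1 = 4 + j by ring]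
    have t1 : g ^ 2 * P12 y q (4 + j) * Af g (P11 y q (4 + j)) (H1 y q (4 + j))
        + g * H2 y q (4 + j) ≤ g ^ 2 * (lam ^ j * e4) * Af g p4 a2 + g * F2 y q (2 + j / 2) := by
      have z1 := hE4 j
      have z2 := A4 j
      have z3 := hH24 j
      have z4 := n4 j
      gcongr
    have w1 := P12_nonneg (q := q) (4 + j)
    have w2 := H2_nonneg (q := q) (4 + j)
    have w3 := n4 j
    calc _ ≤ Af g p4 a2 * (g ^ 2 * (lam ^ j * e4) * Af g p4 a2 + g * F2 y q (2 + j / 2)) :=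
          mul_le_mul (A4 (j + 1)) t1 (by positivity) hA
      _ = _ := by ring
  have hF2s : ∀ M, ∑ i ∈ range M, F2 y q (2 + i) ≤ b2 + b3 + b4 * (1 / (1 - lam)) := by
    intro M
    calc ∑ i ∈ range M, F2 y q (2 + i) ≤ ∑ i ∈ range (M + 1 + 1), F2 y q (2 + i) :=
          sum_le_sum_of_subset_of_nonneg (range_subset_range.2 (by omega))
            (fun _ _ _ => F2_nonneg _)
      _ = ∑ i ∈ range M, F2 y q (4 + i) + F2 y q 3 + F2 y q 2 := by
          rw [sum_range_succ', sum_range_succ']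
          congr 1
          congr 1
          exact sum_congr rfl fun i _ => by congr 1; ring
      _ ≤ b4 * (1 / (1 - lam)) + b3 + b2 := by
          refine add_le_add (add_le_add ?_ hB3) hB2
          calc ∑ i ∈ range M, F2 y q (4 + i) ≤ ∑ i ∈ range M, lam ^ i * b4 :=
                sum_le_sum fun i _ => hB4 i
            _ = b4 * ∑ i ∈ range M, lam ^ i := by rw [← sum_mul, mul_comm]
            _ ≤ b4 * (1 / (1 - lam)) := mul_le_mul_of_nonneg_left (geom_le hl0 hl1 M) hb4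
      _ = _ := by ring
  calc ∑ k ∈ range N, Ck q g k ≤ ∑ k ∈ range (N + 1 + 1 + 1), Ck q g k :=
        sum_le_sum_of_subset_of_nonneg (range_subset_range.2 (by omega))
          (fun _ _ _ => Ck_nonneg hg hr _)
    _ = ∑ j ∈ range N, Ck q g (3 + j) + Ck q g 2 + Ck q g 1 + Ck q g 0 := by
        rw [sum_range_succ', sum_range_succ', sum_range_succ']
        congr 1
        congr 1
        congr 1
        exact sum_congr rfl fun i _ => by congr 1; ring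
    _ ≤ (g ^ 2 * Af g p4 a2 * Af g p4 a2 * (e4 * (1 / (1 - lam)))
        + g * Af g p4 a2 * (2 * (b2 + b3 + b4 * (1 / (1 - lam)))))
        + Af g p4 a2 * (g ^ 2 * e3 * Af g p3 (a1 * m) + g * (b1 * m))
        + Af g p3 (a1 * m) * (g ^ 2 * e2 * Af g p2 a1 + g * b1)
        + Af g p2 a1 * (g ^ 2 * e1 * Af g p1 m) := by
        refine add_le_add (add_le_add (add_le_add ?_ C2) C1) C0
        calc ∑ j ∈ range N, Ck q g (3 + j)
            ≤ ∑ j ∈ range N, (g ^ 2 * Af g p4 a2 * Af g p4 a2 * (e4 * lam ^ j)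
              + g * Af g p4 a2 * F2 y q (2 + j / 2)) := sum_le_sum fun j _ => C3 j
          _ = g ^ 2 * Af g p4 a2 * Af g p4 a2 * (e4 * ∑ j ∈ range N, lam ^ j)
              + g * Af g p4 a2 * ∑ j ∈ range N, F2 y q (2 + j / 2) := by
              rw [sum_add_distrib, mul_sum, mul_sum, mul_sum]
          _ ≤ _ := by
              refine add_le_add ?_ ?_
              · refine mul_le_mul_of_nonneg_left ?_ (by positivity)
                exact mul_le_mul_of_nonneg_left (geom_le hl0 hl1 N) he4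
              · refine mul_le_mul_of_nonneg_left ?_ (by positivity)
                exact sum_half_le (f := fun i => F2 y q (2 + i)) (fun _ => F2_nonneg _) hF2s N
    _ = _ := by ring

end Helper6.NS
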