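import Pool.Agent.Helper6.NS.Values
import Pool.Agent.Helper6.NS.Head

/-! The mass bound. -/

namespace Helper6.NS
open Finset Helper23.NS

/-! small sums -/

lemma mid33 : mid y 3 3 ≤ 6385 / 10000 := by
  unfold mid; simp [sum_range_succ]; unfold y; norm_num
lemma mid44 : mid y 4 4 ≤ 7925 / 10000 := by
  unfold mid; simp [sum_range_succ]; unfold y; norm_num
lemma mid55 : mid y 5 5 ≤ 4965 / 10000 := by
  unfold mid; simp [sum_range_succ]; unfold y; norm_num
lemma mid66 : mid y 6 6 ≤ 5570 / 10000 := by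
  unfold mid; simp [sum_range_succ]; unfold y; norm_num
lemma lm4 : lm y 4 ≤ 6280 / 10000 := by
  unfold lm; simp [sum_range_succ]; unfold y; norm_num
lemma lm5 : lm y 5 ≤ 6363 / 10000 := by
  unfold lm; simp [sum_range_succ]; unfold y; norm_num
lemma lmid4 : lmid y 4 ≤ 7925 / 10000 := by
  unfold lmid; simp [sum_range_succ]; unfold y; norm_num
lemma lmid5 : lmid y 5 ≤ 4965 / 10000 := by
  unfold lmid; simp [sum_range_succ]; unfold y; norm_num
lemma ro4 : ro y 4 ≤ 80753 / 100000 := by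
  unfold ro; simp [sum_range_succ]; unfold y; norm_num
lemma ro5 : ro y 5 ≤ 87858 / 100000 := by
  unfold ro; simp [sum_range_succ]; unfold y; norm_num
lemma ra4 : ra y 4 ≤ 4000 / 10000 := by
  unfold ra; simp [sum_range_succ]; unfold y; norm_num
lemma ra5 : ra y 5 ≤ 2506 / 10000 := by
  unfold ra; simp [sum_range_succ]; unfold y; norm_num
lemma rmid4 : rmid y 4 ≤ 6385 / 10000 := by
  unfold rmid; simp [sum_range_succ]; unfold y; norm_num
lemma rmid5 : rmid y 5 ≤ 7925 / 10000 := by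
  unfold rmid; simp [sum_range_succ]; unfold y; norm_num
lemma pp5 : pp y 5 ≤ 9503 / 10000 := by
  unfold pp okn; simp [sum_range_succ]; unfold y; norm_num
lemma pp6 : pp y 6 ≤ 7511 / 10000 := by
  unfold pp okn; simp [sum_range_succ]; unfold y; norm_num


/-! `q ≥ 6` -/

lemma tail_le (c n : ℕ) : ∑ v ∈ range n, (if c ≤ v then y ^ v else 0) ≤ y ^ c / (1 - y) := by
  have h1 : 0 < 1 - y := by linarith [y_lt_one]
  have key : ∀ n, ∑ v ∈ range n, (if c ≤ v then y ^ v else 0) = (y ^ c - y ^ (max c n)) / (1 - y) := by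
    intro n
    induction n with
    | zero => simp
    | succ n ih =>
      rw [sum_range_succ, ih]
      by_cases h : c ≤ n
      · rw [if_pos h, max_eq_right h, max_eq_right (by omega)]
        field_simp
        ring
      · rw [if_neg h, max_eq_left (by omega), max_eq_left (by omega)]
        ring
  rw [key]
  have : 0 ≤ y ^ (max c n) := pow_nonneg y_nonneg _
  gcongr
  linarith

lemma pp_nonneg (q : ℕ) : 0 ≤ pp y q := by
  unfold pp
  refine sum_nonneg fun u _ => sum_nonneg fun v _ => ?_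
  split_ifs <;> [exact pow_nonneg y_nonneg _; exact le_rfl]

lemma pp_le (q : ℕ) : pp y q ≤ q * (y ^ q / (1 - y)) := by
  unfold pp
  rw [sum_range_succ']
  have h0 : ∑ v ∈ range (q + 1), (if okn q q 0 v then y ^ (0 + v) else 0) = 0 := by
    refine sum_eq_zero fun v _ => ?_
    simp [okn]
  rw [h0, add_zero]
  have h1 : ∀ u ∈ range q, ∑ v ∈ range (q + 1), (if okn q q (u + 1) v then y ^ (u + 1 + v) else 0)
      ≤ y ^ q / (1 - y) := by
    intro u hu
    have hu' := mem_range.1 hu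
    calc ∑ v ∈ range (q + 1), (if okn q q (u + 1) v then y ^ (u + 1 + v) else 0)
        ≤ ∑ v ∈ range (q + 1), y ^ (u + 1) * (if q - (u + 1) ≤ v then y ^ v else 0) := by
          refine sum_le_sum fun v _ => ?_
          by_cases h : okn q q (u + 1) v = true
          · have h' := h
            simp only [okn, Bool.and_eq_true, decide_eq_true_eq] at h'
            rw [if_pos h, if_pos (by omega), pow_add]
          · rw [if_neg h]
            have : 0 ≤ y ^ (u + 1) := pow_nonneg y_nonneg _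
            have : 0 ≤ y ^ v := pow_nonneg y_nonneg _
            split_ifs <;> positivity
      _ = y ^ (u + 1) * ∑ v ∈ range (q + 1), (if q - (u + 1) ≤ v then y ^ v else 0) := by
          rw [mul_sum]
      _ ≤ y ^ (u + 1) * (y ^ (q - (u + 1)) / (1 - y)) :=
          mul_le_mul_of_nonneg_left (tail_le _ _) (pow_nonneg y_nonneg _)
      _ = y ^ q / (1 - y) := by
          rw [← mul_div_assoc, ← pow_add]
          congr 2
          omega
  calc _ ≤ ∑ u ∈ range q, y ^ q / (1 - y) := sum_le_sum h1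
    _ = q * (y ^ q / (1 - y)) := by rw [sum_const, card_range, nsmul_eq_mul]

lemma qy_le (j : ℕ) : ((7 + j : ℕ) : ℝ) * y ^ (7 + j) ≤ 7 * y ^ 7 := by
  induction j with
  | zero => simp
  | succ j ih =>
    refine le_trans ?_ ih
    rw [show 7 + (j + 1) = (7 + j) + 1 by ring, pow_succ]
    push_cast
    have h0 : 0 ≤ y ^ (7 + j) := pow_nonneg y_nonneg _
    have h1 : ((7 : ℝ) + j + 1) * y ≤ 7 + j := by
      unfold y
      have : (0 : ℝ) ≤ j := Nat.cast_nonneg j
      linarith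
    nlinarith

lemma pp7 (j : ℕ) : pp y (7 + j) ≤ 71 / 100 := by
  refine (pp_le _).trans ?_
  have h := qy_le j
  have h1 : (0 : ℝ) < 1 - y := by linarith [y_lt_one]
  rw [← mul_div_assoc, div_le_iff₀ h1]
  refine h.trans ?_
  unfold y
  norm_num

lemma mid7 (j : ℕ) : mid y (7 + j) (7 + j) ≤ 4125 / 10000 := by
  have h : mid y (7 + j) (7 + j) ≤ y ^ 4 / (1 - y) := by
    unfold mid
    refine le_trans ?_ (tail_le 4 (7 + j + 1))
    refine sum_le_sum fun v _ => ?_
    have hv : 0 ≤ y ^ v := pow_nonneg y_nonneg _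
    by_cases h : (decide (1 ≤ v) && decide (7 + j ≤ 2 * v)) = true
    · have h' := h
      simp only [Bool.and_eq_true, decide_eq_true_eq] at h'
      rw [if_pos h, if_pos (by omega)]
    · rw [if_neg h]
      split_ifs <;> positivity
  refine h.trans ?_
  unfold y
  norm_num

lemma AA_nonneg (q N : ℕ) : 0 ≤ AA y q N := by
  unfold AA
  exact mul_nonneg (sum_nonneg fun _ _ => pow_nonneg (pp_nonneg q) _)
    (by linarith [mid_nonneg q q])

lemma AA_le {q : ℕ} {p m : ℝ} (h1 : pp y q ≤ p) (h2 : mid y q q ≤ m) (hp : p < 1) (N : ℕ) :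
    AA y q N ≤ 1 / (1 - p) * (1 + m) := by
  unfold AA
  have h3 := geom_le (pp_nonneg q) (h1.trans_lt hp) (N + 1)
  have h4 : 1 / (1 - pp y q) ≤ 1 / (1 - p) := by
    apply one_div_le_one_div_of_le <;> linarith
  have h5 : (0 : ℝ) < 1 / (1 - p) := by apply one_div_pos.2; linarith
  exact mul_le_mul (h3.trans h4) (by linarith) (by linarith [mid_nonneg q q]) h5.le

lemma AA5 (N : ℕ) : AA y 5 N ≤ 302 / 10 := by
  refine (AA_le pp5 mid55 (by norm_num) N).trans ?_
  norm_num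
lemma AA6 (N : ℕ) : AA y 6 N ≤ 63 / 10 := by
  refine (AA_le pp6 mid66 (by norm_num) N).trans ?_
  norm_num
lemma AA7 (j N : ℕ) : AA y (7 + j) N ≤ 63 / 10 := by
  refine (AA_le (pp7 j) (mid7 j) (by norm_num) N).trans ?_
  norm_num

lemma E6_le (N : ℕ) : E6 y N ≤ 31 := by
  have h6 : ∀ q, 6 ≤ q → AA y q N ≤ 63 / 10 := by
    intro q hq
    rcases Nat.eq_or_lt_of_le hq with h | h
    · rw [← h]; exact AA6 N
    · obtain ⟨j, rfl⟩ := Nat.exists_eq_add_of_le (show 7 ≤ q from h)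
      exact AA7 j N
  have h5 : ∀ q, 5 ≤ q → AA y q N ≤ 302 / 10 := by
    intro q hq
    rcases Nat.eq_or_lt_of_le hq with h | h
    · rw [← h]; exact AA5 N
    · exact (h6 q h).trans (by norm_num)
  unfold E6
  calc ∑ q ∈ Icc 6 N, y ^ q * AA y q N * AA y (q - 1) N
      ≤ ∑ q ∈ Icc 6 N, (63 / 10 * (302 / 10)) * (if 6 ≤ q then y ^ q else 0) := by
        refine sum_le_sum fun q hq => ?_
        have hq' := (mem_Icc.1 hq).1
        rw [if_pos hq']
        have a1 := h6 q hq'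
        have a2 := h5 (q - 1) (by omega)
        have b1 := AA_nonneg q N
        have b2 := AA_nonneg (q - 1) N
        have b3 : 0 ≤ y ^ q := pow_nonneg y_nonneg _
        calc y ^ q * AA y q N * AA y (q - 1) N ≤ y ^ q * (63 / 10) * (302 / 10) := by gcongr
          _ = _ := by ring
    _ ≤ ∑ q ∈ range (N + 1), (63 / 10 * (302 / 10)) * (if 6 ≤ q then y ^ q else 0) := by
        refine sum_le_sum_of_subset_of_nonneg ?_ ?_
        · intro q hq
          have := mem_Icc.1 hq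
          exact mem_range.2 (by omega)
        · intro q _ _
          have b3 : 0 ≤ y ^ q := pow_nonneg y_nonneg _
          split_ifs <;> positivity
    _ = (63 / 10 * (302 / 10)) * ∑ q ∈ range (N + 1), (if 6 ≤ q then y ^ q else 0) := by
        rw [mul_sum]
    _ ≤ (63 / 10 * (302 / 10)) * (y ^ 6 / (1 - y)) :=
        mul_le_mul_of_nonneg_left (tail_le 6 _) (by norm_num)
    _ ≤ 31 := by unfold y; norm_num

/-! `q = 4, 5` -/

lemma hr_of {q : ℕ} {g p1 p2 p3 p4 : ℝ}
    (hP1 : P11 y q 1 ≤ p1) (hP2 : P11 y q 2 ≤ p2) (hP3 : P11 y q 3 ≤ p3)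
    (hP4 : ∀ j, P11 y q (4 + j) ≤ p4)
    (hr1 : g ^ 2 * p1 < 1) (hr2 : g ^ 2 * p2 < 1) (hr3 : g ^ 2 * p3 < 1) (hr4 : g ^ 2 * p4 < 1)
    (k : ℕ) : g ^ 2 * P11 y q (k + 1) < 1 := by
  have hgg : 0 ≤ g ^ 2 := by positivity
  rcases k with _ | _ | _ | k
  · exact lt_of_le_of_lt (mul_le_mul_of_nonneg_left hP1 hgg) hr1
  · exact lt_of_le_of_lt (mul_le_mul_of_nonneg_left hP2 hgg) hr2
  · exact lt_of_le_of_lt (mul_le_mul_of_nonneg_left hP3 hgg) hr3
  · rw [show k + 1 + 1 + 1 + 1 = 4 + k by ring]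
    exact lt_of_le_of_lt (mul_le_mul_of_nonneg_left (hP4 k) hgg) hr4

lemma pow_mul_le_self {l c : ℝ} (h0 : 0 ≤ l) (h1 : l ≤ 1) (hc : 0 ≤ c) (j : ℕ) : l ^ j * c ≤ c := by
  have := pow_le_one₀ h0 h1 (n := j)
  nlinarith

lemma F1_2 {q : ℕ} {a b c l : ℝ} (h2 : F1 y q 2 ≤ a) (h3 : F1 y q 3 ≤ b)
    (h4 : ∀ j, F1 y q (4 + j) ≤ l ^ j * c) (h0 : 0 ≤ l) (h1 : l ≤ 1) (hc : 0 ≤ c)
    (hb : b ≤ a) (hca : c ≤ a) (j : ℕ) : F1 y q (2 + j) ≤ a := by
  rcases j with _ | _ | j
  · exact h2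
  · exact h3.trans hb
  · rw [show 2 + (j + 1 + 1) = 4 + j by ring]
    exact (h4 j).trans ((pow_mul_le_self h0 h1 hc j).trans hca)

lemma SL4 (N : ℕ) : ∑ a ∈ range (N + 1), (113 / 100 : ℝ) ^ (a + 1) * LA y 4 (a + 1) N ≤ 97 := by
  have hP4 : ∀ j, P11 y 4 (4 + j) ≤ 4715999 / 10000000 := fun j =>
    (P114_g j).trans (pow_mul_le_self (by norm_num) (by norm_num) (by norm_num) j)
  have hr := hr_of (g := 113 / 100) P114_1 P114_2 P114_3 hP4 (by norm_num) (by norm_num)
    (by norm_num) (by norm_num)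
  refine (sum_LA_le (by norm_num) hr N).trans ?_
  refine (sum_Ck_le (by norm_num) P114_1 P114_2 P114_3 hP4 P124_1 P124_2 P124_3 P124_g F14_1
    (F1_2 F14_2 F14_3 F14_g (by norm_num) (by norm_num) (by norm_num) (by norm_num) (by norm_num))
    F24_1 F24_2 F24_3 F24_g mid44 (by norm_num) (by norm_num) (by norm_num) (by norm_num)
    (by norm_num) (by norm_num) (by norm_num) N).trans ?_
  unfold Af
  norm_num

lemma SL5 (N : ℕ) : ∑ a ∈ range (N + 1), (11 / 10 : ℝ) ^ (a + 1) * LA y 5 (a + 1) N ≤ 30 := by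
  have hP4 : ∀ j, P11 y 5 (4 + j) ≤ 1733844 / 10000000 := fun j =>
    (P115_g j).trans (pow_mul_le_self (by norm_num) (by norm_num) (by norm_num) j)
  have hr := hr_of (g := 11 / 10) P115_1 P115_2 P115_3 hP4 (by norm_num) (by norm_num)
    (by norm_num) (by norm_num)
  refine (sum_LA_le (by norm_num) hr N).trans ?_
  refine (sum_Ck_le (by norm_num) P115_1 P115_2 P115_3 hP4 P125_1 P125_2 P125_3 P125_g F15_1
    (F1_2 F15_2 F15_3 F15_g (by norm_num) (by norm_num) (by norm_num) (by norm_num) (by norm_num))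
    F25_1 F25_2 F25_3 F25_g mid55 (by norm_num) (by norm_num) (by norm_num) (by norm_num)
    (by norm_num) (by norm_num) (by norm_num) N).trans ?_
  unfold Af
  norm_num

lemma SB_le {q : ℕ} {g l lmd r rr : ℝ} (hg : 0 ≤ g) (h1 : lm y q ≤ l) (h2 : lmid y q ≤ lmd)
    (h3 : ro y q ≤ r) (h4 : ra y q ≤ rr) (hl : g ^ 2 * l < 1) (hr : g * r < 1) (N : ℕ) :
    ∑ a ∈ range (N + 1), g ^ (a + 1) * lb y q (a + 1)
      ≤ g ^ 2 * rr * (Af g l lmd * (1 / (1 - g * r))) := by
  have e1 : g ^ 2 * lm y q < 1 := lt_of_le_of_lt (mul_le_mul_of_nonneg_left h1 (by positivity)) hl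
  have e2 : g * ro y q < 1 := lt_of_le_of_lt (mul_le_mul_of_nonneg_left h3 hg) hr
  refine (sum_lb_le hg e1 e2 N).trans ?_
  have A := Af_mono hg (lmid_nonneg (q := q)) h1 h2 hl
  have A0 := Af_nonneg hg (lmid_nonneg (q := q)) e1
  have B : 1 / (1 - g * ro y q) ≤ 1 / (1 - g * r) := by
    apply one_div_le_one_div_of_le
    · linarith
    · linarith [mul_le_mul_of_nonneg_left h3 hg]
  have B0 : 0 ≤ 1 / (1 - g * ro y q) := by apply one_div_nonneg.2; linarith
  have R0 := ra_nonneg (q := q)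
  refine mul_le_mul ?_ (mul_le_mul A B B0 (A0.trans A)) (mul_nonneg A0 B0)
    (mul_nonneg (by positivity) (R0.trans h4))
  exact mul_le_mul_of_nonneg_left h4 (by positivity)

lemma Bs_le {q : ℕ} {l lmd r rm : ℝ} (h1 : lm y q ≤ l) (h2 : lmid y q ≤ lmd)
    (h3 : ro y q ≤ r) (h4 : rmid y q ≤ rm) (hl : l < 1) (hr : r < 1) (N : ℕ) :
    Bsh y q N ≤ Af 1 l lmd * (1 / (1 - r)) * (1 + rm) := by
  have e1 : lm y q < 1 := h1.trans_lt hl
  have e2 : ro y q < 1 := h3.trans_lt hr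
  refine (Bsh_le e1 e2 N).trans ?_
  have A := Af_mono zero_le_one (lmid_nonneg (q := q)) h1 h2 (by simpa using hl)
  have A0 := Af_nonneg zero_le_one (lmid_nonneg (q := q)) (P := lm y q) (by simpa using e1)
  have B : 1 / (1 - ro y q) ≤ 1 / (1 - r) := by
    apply one_div_le_one_div_of_le
    · linarith
    · linarith
  have B0 : 0 ≤ 1 / (1 - ro y q) := by apply one_div_nonneg.2; linarith
  have R0 := rmid_nonneg (q := q)
  refine mul_le_mul (mul_le_mul A B B0 (A0.trans A)) (by linarith) (by linarith) ?_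
  exact mul_nonneg (A0.trans A) (B0.trans B)

lemma PR4_all (k : ℕ) : PR y 4 k ≤ (113 / 100 : ℝ) ^ 2 * (199 / 200) ^ (2 * k) := by
  rcases k with _ | _ | _ | _ | j
  · show (1 : ℝ) ≤ _
    norm_num
  · exact PR4_1.trans (by norm_num)
  · exact PR4_2.trans (by norm_num)
  · exact PR4_3.trans (by norm_num)
  · rw [show j + 1 + 1 + 1 + 1 = 4 + j by ring]
    refine (PR4_g j).trans ?_
    rw [show 2 * (4 + j) = 8 + 2 * j by ring, pow_add, pow_mul (199 / 200 : ℝ) 2 j]
    have h1 : ((199 : ℝ) / 200) ^ 2 = 39601 / 40000 := by norm_num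
    rw [h1]
    have h2 : (0 : ℝ) ≤ (39601 / 40000) ^ j := by positivity
    have h3 : (12190651 / 10000000 : ℝ) ≤ (113 / 100) ^ 2 * (199 / 200) ^ 8 := by norm_num
    nlinarith

lemma PR5_all (k : ℕ) : PR y 5 k ≤ (11 / 10 : ℝ) ^ 2 * (97 / 100) ^ (2 * k) := by
  rcases k with _ | _ | j
  · show (1 : ℝ) ≤ _
    norm_num
  · exact PR5_1.trans (by norm_num)
  · rw [show j + 1 + 1 = 2 + j by ring]
    refine (PR5_g j).trans ?_
    rw [show 2 * (2 + j) = 4 + 2 * j by ring, pow_add, pow_mul (97 / 100 : ℝ) 2 j]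
    have h1 : ((97 : ℝ) / 100) ^ 2 = 9409 / 10000 := by norm_num
    rw [h1]
    have h2 : (0 : ℝ) ≤ (9409 / 10000) ^ j := by positivity
    have h3 : (9513174 / 10000000 : ℝ) ≤ (11 / 10) ^ 2 * (97 / 100) ^ 4 := by norm_num
    nlinarith

lemma EE4 (N : ℕ) : EE y 4 N ≤ 6100 := by
  have hSB : ∑ a ∈ range (N + 1), (113 / 100 : ℝ) ^ (a + 1) * lb y 4 (a + 1) ≤ 57 := by
    refine (SB_le (by norm_num) lm4 lmid4 ro4 ra4 (by norm_num) (by norm_num) N).trans ?_
    unfold Af
    norm_num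
  have hBs : Bsh y 4 N ≤ 42 := by
    refine (Bs_le lm4 lmid4 ro4 rmid4 (by norm_num) (by norm_num) N).trans ?_
    unfold Af
    norm_num
  refine (EE_le (g := 113 / 100) (μ := 199 / 200) (by norm_num) (by norm_num) (by norm_num)
    PR4_all (mid33.trans (by norm_num)) N (SL4 N) hSB hBs).trans ?_
  unfold y
  norm_num

lemma EE5 (N : ℕ) : EE y 5 N ≤ 600 := by
  have hSB : ∑ a ∈ range (N + 1), (11 / 10 : ℝ) ^ (a + 1) * lb y 5 (a + 1) ≤ 80 := by
    refine (SB_le (by norm_num) lm5 lmid5 ro5 ra5 (by norm_num) (by norm_num) N).trans ?_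
    unfold Af
    norm_num
  have hBs : Bsh y 5 N ≤ 70 := by
    refine (Bs_le lm5 lmid5 ro5 rmid5 (by norm_num) (by norm_num) N).trans ?_
    unfold Af
    norm_num
  refine (EE_le (g := 11 / 10) (μ := 97 / 100) (by norm_num) (by norm_num) (by norm_num)
    PR5_all (mid44.trans (by norm_num)) N (SL5 N) hSB hBs).trans ?_
  unfold y
  norm_num

/-- MODULE D -/
theorem mass (N : ℕ) : ET (1253 / 2000 : ℝ) N ≤ 8000 := by
  have h : ET y N ≤ 8000 := by
    unfold ET
    linarith [EE4 N, EE5 N, E6_le N]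
  exact h

end Helper6.NS
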