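import Pool.Agent.Helper23.NS.Poly

/-! Certificates for path sums at `y = 1253/2000`. -/

namespace Helper6.NS
open Finset Helper23.NS

/-- the evaluation point -/
noncomputable def y : ℝ := 1253 / 2000

lemma y_pos : 0 < y := by unfold y; norm_num
lemma y_nonneg : 0 ≤ y := y_pos.le
lemma y_lt_one : y < 1 := by unfold y; norm_num

/-- table lookup -/
def lk (L : List (List ℕ)) (u v : ℕ) : ℕ := (L.getD u []).getD v 0

/-- scale -/
def DD : ℕ := 10000000

def chk0 (mx s : ℕ) (T : ℕ → Bool) (L : List (List ℕ)) : Bool :=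
  (List.range (mx + 1)).all fun u => (List.range (mx + 1)).all fun v =>
    !(okn mx s u v && T u) || decide (1253 ^ (u + v) * DD ≤ 2000 ^ (u + v) * lk L u v)

def chk1 (mx s a b : ℕ) (L L' : List (List ℕ)) : Bool :=
  (List.range (mx + 1)).all fun u' => (List.range (mx + 1)).all fun v' =>
    !(okn mx s u' v') || decide (b * (1253 ^ (u' + v') *
      (∑ u ∈ range (mx + 1), ∑ v ∈ range (mx + 1),
        if decide (u' ≤ u + 1) && decide (v ≤ v' + 1) then lk L u v else 0))
      ≤ a * (2000 ^ (u' + v') * lk L' u' v'))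

lemma okn_lt {mx s u v : ℕ} (h : okn mx s u v = true) : u < mx + 1 ∧ v < mx + 1 := by
  simp only [okn, Bool.and_eq_true, decide_eq_true_eq] at h
  omega

lemma y_pow (n : ℕ) : y ^ n = (1253 : ℝ) ^ n / 2000 ^ n := by
  unfold y; rw [div_pow]

lemma pv_nonneg (mx s : ℕ) (T : ℕ → Bool) : ∀ k u v, 0 ≤ pv y mx s T k u v
  | 0, u, v => by
      unfold pv; split_ifs <;> [exact pow_nonneg y_nonneg _; exact le_rfl]
  | k + 1, u, v => by
      unfold pv
      split_ifs
      · refine mul_nonneg (pow_nonneg y_nonneg _) (sum_nonneg fun _ _ => sum_nonneg fun _ _ => ?_)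
        split_ifs <;> [exact pv_nonneg mx s T k _ _; exact le_rfl]
      · exact le_rfl

lemma lk_div_nonneg (L : List (List ℕ)) (u v : ℕ) : (0 : ℝ) ≤ (lk L u v : ℝ) / DD := by positivity

lemma pv_le0 {mx s : ℕ} {T : ℕ → Bool} {L : List (List ℕ)} (h : chk0 mx s T L = true) (u v : ℕ) :
    pv y mx s T 0 u v ≤ (lk L u v : ℝ) / DD := by
  unfold pv
  split_ifs with hc
  · have hc' := hc
    simp only [Bool.and_eq_true] at hc'
    obtain ⟨hu, hv⟩ := okn_lt hc'.1
    simp only [chk0, List.all_eq_true, List.mem_range] at h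
    have := h u hu v hv
    rw [hc] at this
    simp only [Bool.not_true, Bool.false_or, decide_eq_true_eq] at this
    rw [y_pow, div_le_div_iff₀ (by positivity) (by unfold DD; positivity)]
    have h2 : ((1253 ^ (u + v) * DD : ℕ) : ℝ) ≤ ((2000 ^ (u + v) * lk L u v : ℕ) : ℝ) := by
      exact_mod_cast this
    push_cast at h2
    linarith [h2]
  · exact lk_div_nonneg L u v

lemma pv_step {mx s a b : ℕ} {T : ℕ → Bool} {L L' : List (List ℕ)} (h : chk1 mx s a b L L' = true)
    (hb : 0 < b) {k : ℕ} {c : ℝ} (hc : 0 ≤ c)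
    (hk : ∀ u v, pv y mx s T k u v ≤ c * ((lk L u v : ℝ) / DD)) (u' v' : ℕ) :
    pv y mx s T (k + 1) u' v' ≤ (c * ((a : ℝ) / b)) * ((lk L' u' v' : ℝ) / DD) := by
  unfold pv
  split_ifs with ho
  · obtain ⟨hu, hv⟩ := okn_lt ho
    simp only [chk1, List.all_eq_true, List.mem_range] at h
    have h1 := h u' hu v' hv
    rw [ho] at h1
    simp only [Bool.not_true, Bool.false_or, decide_eq_true_eq] at h1
    have h2 : ((b * (1253 ^ (u' + v') * (∑ u ∈ range (mx + 1), ∑ v ∈ range (mx + 1),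
        if decide (u' ≤ u + 1) && decide (v ≤ v' + 1) then lk L u v else 0)) : ℕ) : ℝ)
        ≤ ((a * (2000 ^ (u' + v') * lk L' u' v') : ℕ) : ℝ) := by exact_mod_cast h1
    have h3 : (∑ u ∈ range (mx + 1), ∑ v ∈ range (mx + 1),
        if decide (u' ≤ u + 1) && decide (v ≤ v' + 1) then pv y mx s T k u v else 0)
        ≤ c * ((((∑ u ∈ range (mx + 1), ∑ v ∈ range (mx + 1),
        if decide (u' ≤ u + 1) && decide (v ≤ v' + 1) then lk L u v else 0 : ℕ)) : ℝ) / DD) := by
      push_cast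
      rw [sum_div, mul_sum]
      refine sum_le_sum fun u _ => ?_
      rw [sum_div, mul_sum]
      refine sum_le_sum fun v _ => ?_
      split_ifs
      · exact hk u v
      · simp
    set S : ℕ := ∑ u ∈ range (mx + 1), ∑ v ∈ range (mx + 1),
        if decide (u' ≤ u + 1) && decide (v ≤ v' + 1) then lk L u v else 0 with hS
    push_cast at h2
    have hD : (0 : ℝ) < DD := by unfold DD; norm_num
    have hb' : (0 : ℝ) < b := by exact_mod_cast hb
    calc y ^ (u' + v') * (∑ u ∈ range (mx + 1), ∑ v ∈ range (mx + 1),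
          if decide (u' ≤ u + 1) && decide (v ≤ v' + 1) then pv y mx s T k u v else 0)
        ≤ y ^ (u' + v') * (c * ((S : ℝ) / DD)) :=
          mul_le_mul_of_nonneg_left h3 (pow_nonneg y_nonneg _)
      _ = c / DD * ((1253 : ℝ) ^ (u' + v') * S) / 2000 ^ (u' + v') := by rw [y_pow]; ring
      _ ≤ c / DD * ((a : ℝ) * (2000 ^ (u' + v') * lk L' u' v') / b) / 2000 ^ (u' + v') := by
          have : (1253 : ℝ) ^ (u' + v') * S ≤ (a : ℝ) * (2000 ^ (u' + v') * lk L' u' v') / b := by
            rw [le_div_iff₀ hb']; linarith [h2]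
          gcongr
      _ = (c * ((a : ℝ) / b)) * ((lk L' u' v' : ℝ) / DD) := by
          field_simp
  · have : (0 : ℝ) ≤ (lk L' u' v' : ℝ) / DD := lk_div_nonneg _ _ _
    positivity

/-- total of a table -/
def tot (mx : ℕ) (T2 : ℕ → Bool) (L : List (List ℕ)) : ℕ :=
  ∑ u ∈ range (mx + 1), ∑ v ∈ range (mx + 1), if T2 v then lk L u v else 0

lemma PP_le {mx s : ℕ} {T T2 : ℕ → Bool} {z : ℝ} {L : List (List ℕ)} {k : ℕ} {c : ℝ}
    (hk : ∀ u v, pv y mx s T k u v ≤ c * ((lk L u v : ℝ) / DD)) :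
    PP y mx s T T2 z (k + 1) ≤ c * ((tot mx T2 L : ℝ) / DD) := by
  unfold PP tot
  push_cast
  rw [sum_div, mul_sum]
  refine sum_le_sum fun u _ => ?_
  rw [sum_div, mul_sum]
  refine sum_le_sum fun v _ => ?_
  split_ifs
  · exact hk u v
  · simp

lemma pv_geom {mx s a b : ℕ} {T : ℕ → Bool} {G : List (List ℕ)} (h : chk1 mx s a b G G = true)
    (hb : 0 < b) {k : ℕ} (hk : ∀ u v, pv y mx s T k u v ≤ (lk G u v : ℝ) / DD) (j : ℕ) :
    ∀ u v, pv y mx s T (k + j) u v ≤ ((a : ℝ) / b) ^ j * ((lk G u v : ℝ) / DD) := by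
  induction j with
  | zero => intro u v; simpa using hk u v
  | succ j ih =>
    intro u v
    have := pv_step h hb (k := k + j) (c := ((a : ℝ) / b) ^ j) (by positivity) ih u v
    rw [pow_succ]
    exact this

lemma PP_nonneg {mx s : ℕ} {T T2 : ℕ → Bool} {z : ℝ} (hz : 0 ≤ z) (k : ℕ) :
    0 ≤ PP y mx s T T2 z k := by
  cases k with
  | zero => exact hz
  | succ k =>
    unfold PP
    refine sum_nonneg fun u _ => sum_nonneg fun v _ => ?_
    split_ifs <;> [exact pv_nonneg _ _ _ _ _ _; exact le_rfl]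

end Helper6.NS
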