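import Pool.Agent.Helper6.NS.Cert

/-! Sum estimates for the mass bound. -/

namespace Helper6.NS
open Finset Helper23.NS

lemma pal_nonneg {P H : ℝ} (hP : 0 ≤ P) (hH : 0 ≤ H) (n : ℕ) : 0 ≤ pal n P H := by
  unfold pal; positivity

lemma pal_le {P H g t : ℝ} (hP : 0 ≤ P) (hH : 0 ≤ H) (hg : 1 ≤ g) (ht : 0 ≤ t)
    (h1 : P ≤ (g * t) ^ 2) (h2 : H ≤ g ^ 2 * t) (n : ℕ) : pal n P H ≤ g * (g * t) ^ n := by
  unfold pal
  have hg0 : 0 ≤ g := by linarith
  have e1 : P ^ (n / 2) ≤ ((g * t) ^ 2) ^ (n / 2) := pow_le_pow_left₀ hP h1 _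
  have e2 : H ^ (n % 2) ≤ (g * (g * t)) ^ (n % 2) :=
    pow_le_pow_left₀ hH (by nlinarith [h2]) _
  have e3 : g ^ (n % 2) ≤ g := by
    rcases Nat.mod_two_eq_zero_or_one n with h | h <;> rw [h] <;> simp [hg]
  calc P ^ (n / 2) * H ^ (n % 2)
      ≤ ((g * t) ^ 2) ^ (n / 2) * (g * (g * t)) ^ (n % 2) :=
        mul_le_mul e1 e2 (by positivity) (by positivity)
    _ = g ^ (n % 2) * (g * t) ^ (2 * (n / 2) + n % 2) := by
        rw [mul_pow g (g * t), pow_add, pow_mul]; ring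
    _ = g ^ (n % 2) * (g * t) ^ n := by rw [Nat.div_add_mod]
    _ ≤ g * (g * t) ^ n := by gcongr

lemma sum_pal_le {P H g : ℝ} (hP : 0 ≤ P) (hH : 0 ≤ H) (hg : 0 ≤ g) (hr : g ^ 2 * P < 1)
    (N : ℕ) : ∑ n ∈ range N, g ^ n * pal n P H ≤ (1 + g * H) / (1 - g ^ 2 * P) := by
  have key : ∀ M : ℕ, ∑ n ∈ range (2 * M), g ^ n * pal n P H
      = (1 + g * H) * ∑ j ∈ range M, (g ^ 2 * P) ^ j := by
    intro M
    induction M with
    | zero => simp
    | succ M ih =>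
      rw [show 2 * (M + 1) = 2 * M + 1 + 1 by ring, sum_range_succ, sum_range_succ, ih,
        sum_range_succ]
      have a1 : (2 * M) / 2 = M := by omega
      have a2 : (2 * M) % 2 = 0 := by omega
      have a3 : (2 * M + 1) / 2 = M := by omega
      have a4 : (2 * M + 1) % 2 = 1 := by omega
      unfold pal
      rw [a1, a2, a3, a4, mul_pow, ← pow_mul, pow_succ]
      ring
  have hnn : ∀ n, 0 ≤ g ^ n * pal n P H := fun n => mul_nonneg (pow_nonneg hg _) (pal_nonneg hP hH _)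
  have hr0 : 0 ≤ g ^ 2 * P := by positivity
  calc ∑ n ∈ range N, g ^ n * pal n P H ≤ ∑ n ∈ range (2 * N), g ^ n * pal n P H :=
        sum_le_sum_of_subset_of_nonneg (range_subset_range.2 (by omega)) (fun _ _ _ => hnn _)
    _ = (1 + g * H) * ∑ j ∈ range N, (g ^ 2 * P) ^ j := key N
    _ ≤ (1 + g * H) * (1 / (1 - g ^ 2 * P)) := by
        refine mul_le_mul_of_nonneg_left ?_ (by positivity)
        rw [le_div_iff₀ (by linarith), mul_comm, mul_neg_geom_sum]
        have := pow_nonneg hr0 N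
        linarith
    _ = (1 + g * H) / (1 - g ^ 2 * P) := by ring

lemma geom_le {r : ℝ} (h0 : 0 ≤ r) (h1 : r < 1) (N : ℕ) : ∑ j ∈ range N, r ^ j ≤ 1 / (1 - r) := by
  rw [le_div_iff₀ (by linarith), mul_comm, mul_neg_geom_sum]
  have := pow_nonneg h0 N
  linarith

lemma conv_le {x z : ℕ → ℝ} {X Z : ℝ} (hx : ∀ n, 0 ≤ x n) (_hz : ∀ n, 0 ≤ z n)
    (hX : ∀ N, ∑ n ∈ range N, x n ≤ X) (hZ : ∀ N, ∑ n ∈ range N, z n ≤ Z) (M : ℕ) :
    ∑ a ∈ range (M + 1), ∑ s ∈ range a, x s * z (a - 1 - s) ≤ X * Z := by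
  rw [sum_range_succ']
  simp only [range_zero, sum_empty, add_zero, Nat.add_sub_cancel]
  rw [sum_range_diag_flip M (fun s j => x s * z j)]
  have hZ0 : 0 ≤ Z := le_trans (by simp) (hZ 0)
  calc ∑ m ∈ range M, ∑ k ∈ range (M - m), x m * z k
      = ∑ m ∈ range M, x m * ∑ k ∈ range (M - m), z k := by simp_rw [mul_sum]
    _ ≤ ∑ m ∈ range M, x m * Z := sum_le_sum fun m _ => mul_le_mul_of_nonneg_left (hZ _) (hx m)
    _ = (∑ m ∈ range M, x m) * Z := by rw [sum_mul]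
    _ ≤ X * Z := mul_le_mul_of_nonneg_right (hX M) hZ0

lemma dgeom {μ : ℝ} (a K : ℕ) :
    (1 - μ) * ∑ k ∈ range K, ∑ s ∈ range a, μ ^ (k * a + s) = 1 - μ ^ (K * a) := by
  induction K with
  | zero => simp
  | succ K ih =>
    rw [sum_range_succ, mul_add, ih]
    have : ∑ s ∈ range a, μ ^ (K * a + s) = μ ^ (K * a) * ∑ s ∈ range a, μ ^ s := by
      rw [mul_sum]; exact sum_congr rfl fun s _ => by rw [pow_add]
    rw [this, mul_left_comm, mul_neg_geom_sum, add_mul, one_mul, pow_add]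
    ring

variable {q : ℕ} {g μ : ℝ}

lemma mid_nonneg (mx s : ℕ) : 0 ≤ mid y mx s := by
  unfold mid
  refine sum_nonneg fun v _ => ?_
  split_ifs <;> [exact pow_nonneg y_nonneg _; exact le_rfl]

lemma HH_nonneg {F : ℕ → ℝ} {m : ℝ} (hF : ∀ k, 0 ≤ F k) (hm : 0 ≤ m) (k : ℕ) : 0 ≤ HH F m k :=
  mul_nonneg (hF _) (pow_nonneg hm _)

lemma PR_nonneg (k : ℕ) : 0 ≤ PR y q k := PP_nonneg zero_le_one k
lemma HR_nonneg (k : ℕ) : 0 ≤ HR y q k := HH_nonneg PR_nonneg (mid_nonneg _ _) k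
lemma P11_nonneg (k : ℕ) : 0 ≤ P11 y q k := PP_nonneg zero_le_one k
lemma P12_nonneg (k : ℕ) : 0 ≤ P12 y q k := PP_nonneg le_rfl k
lemma F1_nonneg (k : ℕ) : 0 ≤ F1 y q k := PP_nonneg zero_le_one k
lemma F2_nonneg (k : ℕ) : 0 ≤ F2 y q k := PP_nonneg le_rfl k
lemma H1_nonneg (k : ℕ) : 0 ≤ H1 y q k := HH_nonneg F1_nonneg (mid_nonneg _ _) k
lemma H2_nonneg (k : ℕ) : 0 ≤ H2 y q k := HH_nonneg F2_nonneg (mid_nonneg _ _) k

lemma HR_le (_hg : 0 ≤ g) (hμ0 : 0 < μ) (hPR : ∀ k, PR y q k ≤ g ^ 2 * μ ^ (2 * k))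
    (hm : mid y (q - 1) (q - 1) ≤ μ) (k : ℕ) : HR y q k ≤ g ^ 2 * μ ^ k := by
  unfold HR HH
  calc PR y q (k / 2) * mid y (q - 1) (q - 1) ^ (k % 2)
      ≤ (g ^ 2 * μ ^ (2 * (k / 2))) * μ ^ (k % 2) :=
        mul_le_mul (hPR _) (pow_le_pow_left₀ (mid_nonneg _ _) hm _)
          (pow_nonneg (mid_nonneg _ _) _) (by positivity)
    _ = g ^ 2 * μ ^ (2 * (k / 2) + k % 2) := by rw [pow_add]; ring
    _ = g ^ 2 * μ ^ k := by rw [Nat.div_add_mod]

lemma RA_nonneg (a N : ℕ) : 0 ≤ RA y q a N := by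
  unfold RA
  exact sum_nonneg fun k _ => sum_nonneg fun s _ => mul_nonneg
    (pal_nonneg (PR_nonneg _) (HR_nonneg _) _) (pal_nonneg (PR_nonneg _) (HR_nonneg _) _)

lemma RA_le (hg : 1 ≤ g) (hμ0 : 0 < μ) (hμ1 : μ < 1)
    (hPR : ∀ k, PR y q k ≤ g ^ 2 * μ ^ (2 * k))
    (hm : mid y (q - 1) (q - 1) ≤ μ) (a N : ℕ) : RA y q a N ≤ g ^ (a + 2) / (1 - μ) := by
  have hg0 : 0 ≤ g := by linarith
  have hHR := HR_le (q := q) hg0 hμ0 hPR hm
  have hp : ∀ n k, pal n (PR y q k) (HR y q k) ≤ g * (g * μ ^ k) ^ n := by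
    intro n k
    refine pal_le (PR_nonneg _) (HR_nonneg _) hg (by positivity) ?_ (hHR k) n
    refine (hPR k).trans (le_of_eq ?_)
    rw [mul_pow, ← pow_mul, mul_comm k 2]
  unfold RA
  calc ∑ k ∈ range (N / a + 1), ∑ s ∈ range a,
        pal s (PR y q (k + 1)) (HR y q (k + 1)) * pal (a - s) (PR y q k) (HR y q k)
      ≤ ∑ k ∈ range (N / a + 1), ∑ s ∈ range a, g ^ (a + 2) * μ ^ (k * a + s) := by
        refine sum_le_sum fun k _ => sum_le_sum fun s hs => ?_
        have hs' : s ≤ a := (mem_range.1 hs).le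
        calc pal s (PR y q (k + 1)) (HR y q (k + 1)) * pal (a - s) (PR y q k) (HR y q k)
            ≤ (g * (g * μ ^ (k + 1)) ^ s) * (g * (g * μ ^ k) ^ (a - s)) :=
              mul_le_mul (hp _ _) (hp _ _) (pal_nonneg (PR_nonneg _) (HR_nonneg _) _)
                (by positivity)
          _ = g ^ (a + 2) * μ ^ (k * a + s) := by
              obtain ⟨b, rfl⟩ := Nat.exists_eq_add_of_le hs'
              rw [Nat.add_sub_cancel_left]
              rw [mul_pow, mul_pow, ← pow_mul, ← pow_mul]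
              ring
    _ = g ^ (a + 2) * ∑ k ∈ range (N / a + 1), ∑ s ∈ range a, μ ^ (k * a + s) := by
        simp_rw [mul_sum]
    _ ≤ g ^ (a + 2) * (1 / (1 - μ)) := by
        refine mul_le_mul_of_nonneg_left ?_ (by positivity)
        rw [le_div_iff₀ (by linarith), mul_comm, dgeom]
        have : 0 < μ ^ ((N / a + 1) * a) := by positivity
        linarith
    _ = g ^ (a + 2) / (1 - μ) := by ring

/-- closed factor -/
noncomputable def Af (g P H : ℝ) : ℝ := (1 + g * H) / (1 - g ^ 2 * P)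

lemma Af_nonneg {P H : ℝ} (hg : 0 ≤ g) (hH : 0 ≤ H) (hr : g ^ 2 * P < 1) : 0 ≤ Af g P H := by
  unfold Af
  exact div_nonneg (by positivity) (by linarith)

lemma Af_mono {P H P' H' : ℝ} (hg : 0 ≤ g) (hH : 0 ≤ H) (h1 : P ≤ P') (h2 : H ≤ H')
    (hr : g ^ 2 * P' < 1) : Af g P H ≤ Af g P' H' := by
  unfold Af
  have h3 : g ^ 2 * P ≤ g ^ 2 * P' := by gcongr
  have h4 : g * H ≤ g * H' := by gcongr
  exact div_le_div₀ (by nlinarith [mul_nonneg hg hH]) (by linarith) (by linarith) (by linarith)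

/-- `k`-th summand of the left block -/
noncomputable def Ck (q : ℕ) (g : ℝ) (k : ℕ) : ℝ :=
  Af g (P11 y q (k + 2)) (H1 y q (k + 2)) *
    (g ^ 2 * P12 y q (k + 1) * Af g (P11 y q (k + 1)) (H1 y q (k + 1)) + g * H2 y q (k + 1))

lemma sum_LA_le (hg : 0 ≤ g) (hr : ∀ k, g ^ 2 * P11 y q (k + 1) < 1) (N : ℕ) :
    ∑ a ∈ range (N + 1), g ^ (a + 1) * LA y q (a + 1) N ≤ ∑ k ∈ range N, Ck q g k := by
  have hpn : ∀ n k, 0 ≤ pal n (P11 y q k) (H1 y q k) := fun n k =>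
    pal_nonneg (P11_nonneg _) (H1_nonneg _) n
  set t : ℕ → ℕ → ℝ := fun a k =>
    (∑ s ∈ range a, pal s (P11 y q (k + 2)) (H1 y q (k + 2)) * P12 y q (k + 1)
        * pal (a - 1 - s) (P11 y q (k + 1)) (H1 y q (k + 1))
      + pal a (P11 y q (k + 2)) (H1 y q (k + 2)) * H2 y q (k + 1)) with ht
  have ht0 : ∀ a k, 0 ≤ t a k := by
    intro a k
    refine add_nonneg (sum_nonneg fun s _ => ?_) (mul_nonneg (hpn _ _) (H2_nonneg _))
    exact mul_nonneg (mul_nonneg (hpn _ _) (P12_nonneg _)) (hpn _ _)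
  have hLA : ∀ a, LA y q (a + 1) N ≤ ∑ k ∈ range N, t a k := by
    intro a
    unfold LA
    have e : ∀ k, (∑ s ∈ range (a + 1 - 1), pal s (P11 y q (k + 2)) (H1 y q (k + 2))
        * P12 y q (k + 1) * pal (a + 1 - 2 - s) (P11 y q (k + 1)) (H1 y q (k + 1))
      + pal (a + 1 - 1) (P11 y q (k + 2)) (H1 y q (k + 2)) * H2 y q (k + 1)) = t a k := by
      intro k
      rw [ht]
      simp only [Nat.add_sub_cancel, show a + 1 - 2 = a - 1 by omega]
    simp_rw [e]
    exact sum_le_sum_of_subset_of_nonneg (range_subset_range.2 (Nat.div_le_self _ _))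
      (fun _ _ _ => ht0 _ _)
  calc ∑ a ∈ range (N + 1), g ^ (a + 1) * LA y q (a + 1) N
      ≤ ∑ a ∈ range (N + 1), g ^ (a + 1) * ∑ k ∈ range N, t a k :=
        sum_le_sum fun a _ => mul_le_mul_of_nonneg_left (hLA a) (pow_nonneg hg _)
    _ = ∑ k ∈ range N, ∑ a ∈ range (N + 1), g ^ (a + 1) * t a k := by
        simp_rw [mul_sum]; exact sum_comm
    _ ≤ ∑ k ∈ range N, Ck q g k := by
        refine sum_le_sum fun k _ => ?_
        set P := P11 y q (k + 1)
        set H := H1 y q (k + 1)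
        set P' := P11 y q (k + 2) with hP'
        set H' := H1 y q (k + 2)
        have hP0 : 0 ≤ P := P11_nonneg _
        have hH0 : 0 ≤ H := H1_nonneg _
        have hP0' : 0 ≤ P' := P11_nonneg _
        have hH0' : 0 ≤ H' := H1_nonneg _
        have hrP : g ^ 2 * P < 1 := hr k
        have hrP' : g ^ 2 * P' < 1 := hr (k + 1)
        have c1 := conv_le (x := fun n => g ^ n * pal n P' H') (z := fun n => g ^ n * pal n P H)
          (fun n => mul_nonneg (pow_nonneg hg _) (pal_nonneg hP0' hH0' _))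
          (fun n => mul_nonneg (pow_nonneg hg _) (pal_nonneg hP0 hH0 _))
          (fun N => sum_pal_le hP0' hH0' hg hrP' N) (fun N => sum_pal_le hP0 hH0 hg hrP N) N
        have c2 := sum_pal_le hP0' hH0' hg hrP' (N + 1)
        have e1 : ∑ a ∈ range (N + 1), g ^ (a + 1) * t a k
            = g ^ 2 * P12 y q (k + 1) * (∑ a ∈ range (N + 1), ∑ s ∈ range a,
                (g ^ s * pal s P' H') * (g ^ (a - 1 - s) * pal (a - 1 - s) P H))
              + g * H2 y q (k + 1) * ∑ a ∈ range (N + 1), g ^ a * pal a P' H' := by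
          rw [mul_sum, mul_sum, ← sum_add_distrib]
          refine sum_congr rfl fun a _ => ?_
          rw [ht]
          simp only
          rw [mul_add]
          congr 1
          · rw [mul_sum, mul_sum]
            refine sum_congr rfl fun s hs => ?_
            have hs' := mem_range.1 hs
            have : g ^ (a + 1) = g ^ 2 * (g ^ s * g ^ (a - 1 - s)) := by
              rw [← pow_add, ← pow_add]; congr 1; omega
            rw [this]; ring
          · rw [pow_succ]; ring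
        rw [e1]
        have hA' : 0 ≤ (1 + g * H') / (1 - g ^ 2 * P') := Af_nonneg hg hH0' hrP'
        calc _ ≤ g ^ 2 * P12 y q (k + 1) * ((1 + g * H') / (1 - g ^ 2 * P')
                  * ((1 + g * H) / (1 - g ^ 2 * P)))
              + g * H2 y q (k + 1) * ((1 + g * H') / (1 - g ^ 2 * P')) := by
              refine add_le_add (mul_le_mul_of_nonneg_left c1 ?_)
                (mul_le_mul_of_nonneg_left c2 ?_)
              · exact mul_nonneg (by positivity) (P12_nonneg _)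
              · exact mul_nonneg hg (H2_nonneg _)
          _ = Ck q g k := by unfold Ck Af; ring

lemma sum_nonneg_if {c : Prop} [Decidable c] {n : ℕ} : (0 : ℝ) ≤ if c then y ^ n else 0 := by
  split_ifs <;> [exact pow_nonneg y_nonneg _; exact le_rfl]

lemma lm_nonneg : 0 ≤ lm y q := by
  unfold lm; exact sum_nonneg fun _ _ => sum_nonneg fun _ _ => sum_nonneg_if
lemma lmid_nonneg : 0 ≤ lmid y q := by
  unfold lmid; exact sum_nonneg fun _ _ => sum_nonneg_if
lemma ro_nonneg : 0 ≤ ro y q := by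
  unfold ro; exact sum_nonneg fun _ _ => sum_nonneg fun _ _ => sum_nonneg_if
lemma ra_nonneg : 0 ≤ ra y q := by
  unfold ra; exact sum_nonneg fun _ _ => sum_nonneg_if
lemma rmid_nonneg : 0 ≤ rmid y q := by
  unfold rmid; exact sum_nonneg fun _ _ => sum_nonneg_if

lemma sum_lb_le (hg : 0 ≤ g) (h1 : g ^ 2 * lm y q < 1) (h2 : g * ro y q < 1) (N : ℕ) :
    ∑ a ∈ range (N + 1), g ^ (a + 1) * lb y q (a + 1)
      ≤ g ^ 2 * ra y q * (Af g (lm y q) (lmid y q) * (1 / (1 - g * ro y q))) := by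
  have c1 := conv_le (x := fun n => g ^ n * pal n (lm y q) (lmid y q))
    (z := fun n => (g * ro y q) ^ n)
    (fun n => mul_nonneg (pow_nonneg hg _) (pal_nonneg lm_nonneg lmid_nonneg _))
    (fun n => pow_nonneg (mul_nonneg hg ro_nonneg) _)
    (fun N => sum_pal_le lm_nonneg lmid_nonneg hg h1 N)
    (fun N => geom_le (mul_nonneg hg ro_nonneg) h2 N) N
  have e1 : ∑ a ∈ range (N + 1), g ^ (a + 1) * lb y q (a + 1)
      = g ^ 2 * ra y q * ∑ a ∈ range (N + 1), ∑ s ∈ range a,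
        (g ^ s * pal s (lm y q) (lmid y q)) * (g * ro y q) ^ (a - 1 - s) := by
    rw [mul_sum]
    refine sum_congr rfl fun a _ => ?_
    unfold lb
    rw [show a + 1 - 1 = a by omega, show a + 1 - 2 = a - 1 by omega, mul_sum, mul_sum, mul_sum]
    refine sum_congr rfl fun s hs => ?_
    have hs' := mem_range.1 hs
    have : g ^ (a + 1) = g ^ 2 * (g ^ s * g ^ (a - 1 - s)) := by
      rw [← pow_add, ← pow_add]; congr 1; omega
    rw [this, mul_pow]; ring
  rw [e1]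
  refine mul_le_mul_of_nonneg_left ?_ (mul_nonneg (by positivity) ra_nonneg)
  exact c1

lemma Bsh_le (h1 : lm y q < 1) (h2 : ro y q < 1) (N : ℕ) :
    Bsh y q N ≤ Af 1 (lm y q) (lmid y q) * (1 / (1 - ro y q)) * (1 + rmid y q) := by
  unfold Bsh
  have c1 := sum_pal_le (g := 1) (lm_nonneg (q := q)) (lmid_nonneg (q := q)) zero_le_one
    (by simpa using h1) (N + 1)
  simp only [one_pow, one_mul] at c1
  have c2 := geom_le (ro_nonneg (q := q)) h2 (N + 1)
  have hA : Af 1 (lm y q) (lmid y q) = (1 + lmid y q) / (1 - lm y q) := by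
    unfold Af; simp
  rw [hA]
  have hr := rmid_nonneg (q := q)
  refine mul_le_mul_of_nonneg_right ?_ (by linarith)
  refine mul_le_mul c1 c2 (sum_nonneg fun _ _ => pow_nonneg ro_nonneg _) ?_
  exact div_nonneg (by linarith [lmid_nonneg (q := q)]) (by linarith)

lemma lb_nonneg (a : ℕ) : 0 ≤ lb y q a := by
  unfold lb
  exact mul_nonneg ra_nonneg (sum_nonneg fun _ _ => mul_nonneg
    (pal_nonneg lm_nonneg lmid_nonneg _) (pow_nonneg ro_nonneg _))

lemma LA_nonneg (a N : ℕ) : 0 ≤ LA y q a N := by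
  unfold LA
  have hpn : ∀ n k, 0 ≤ pal n (P11 y q k) (H1 y q k) := fun n k =>
    pal_nonneg (P11_nonneg _) (H1_nonneg _) n
  exact sum_nonneg fun k _ => add_nonneg (sum_nonneg fun s _ => mul_nonneg
    (mul_nonneg (hpn _ _) (P12_nonneg _)) (hpn _ _)) (mul_nonneg (hpn _ _) (H2_nonneg _))

lemma EE_le (hg : 1 ≤ g) (hμ0 : 0 < μ) (hμ1 : μ < 1)
    (hPR : ∀ k, PR y q k ≤ g ^ 2 * μ ^ (2 * k))
    (hm : mid y (q - 1) (q - 1) ≤ μ) (N : ℕ) {SL SB Bs : ℝ}
    (hSL : ∑ a ∈ range (N + 1), g ^ (a + 1) * LA y q (a + 1) N ≤ SL)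
    (hSB : ∑ a ∈ range (N + 1), g ^ (a + 1) * lb y q (a + 1) ≤ SB)
    (hBs : Bsh y q N ≤ Bs) :
    EE y q N ≤ y ^ q * (g ^ 2 / (1 - μ) * (SL + SB) + Bs) := by
  unfold EE
  have hg0 : 0 ≤ g := by linarith
  refine mul_le_mul_of_nonneg_left (add_le_add ?_ hBs) (pow_nonneg y_nonneg _)
  have h1μ : 0 < 1 - μ := by linarith
  calc ∑ a ∈ range (N + 1), (LA y q (a + 1) N + lb y q (a + 1)) * RA y q (a + 1) N
      ≤ ∑ a ∈ range (N + 1), g ^ 2 / (1 - μ) *
          (g ^ (a + 1) * LA y q (a + 1) N + g ^ (a + 1) * lb y q (a + 1)) := by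
        refine sum_le_sum fun a _ => ?_
        have := RA_le (q := q) hg hμ0 hμ1 hPR hm (a + 1) N
        have hn : 0 ≤ LA y q (a + 1) N + lb y q (a + 1) := add_nonneg (LA_nonneg _ _) (lb_nonneg _)
        calc (LA y q (a + 1) N + lb y q (a + 1)) * RA y q (a + 1) N
            ≤ (LA y q (a + 1) N + lb y q (a + 1)) * (g ^ (a + 1 + 2) / (1 - μ)) :=
              mul_le_mul_of_nonneg_left this hn
          _ = _ := by rw [pow_add g (a + 1) 2]; field_simp
    _ = g ^ 2 / (1 - μ) * (∑ a ∈ range (N + 1), g ^ (a + 1) * LA y q (a + 1) N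
          + ∑ a ∈ range (N + 1), g ^ (a + 1) * lb y q (a + 1)) := by
        rw [← mul_sum, sum_add_distrib]
    _ ≤ g ^ 2 / (1 - μ) * (SL + SB) :=
        mul_le_mul_of_nonneg_left (add_le_add hSL hSB) (by positivity)

end Helper6.NS
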