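import Pool.Agent.Helper6.NS.Cert

/-! Tables certifying the path sums. -/

namespace Helper6.NS
open Finset Helper23.NS

def R4_0 : List (List ℕ) := [[0, 0, 0, 0], [0, 0, 2459027, 1540581], [0, 2459027, 1540581, 965174], [0, 1540581, 965174, 604682]]
def R4_1 : List (List ℕ) := [[0, 0, 0, 0], [0, 0, 2969233, 1860224], [0, 2204368, 1860224, 1165431], [0, 1002204, 779399, 488294]]
def R4_2 : List (List ℕ) := [[0, 0, 0, 0], [0, 0, 3031827, 1899440], [0, 2167738, 1899440, 1189999], [0, 900654, 723873, 453507]]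
def R4_G : List (List ℕ) := [[0, 0, 0, 0], [0, 0, 3027917, 1896990], [0, 2151327, 1896990, 1188465], [0, 876853, 708336, 443773]]

lemma R4_c0 : chk0 3 3 tt R4_0 = true := by decide +kernel
def R4_3 : List (List ℕ) := [[0, 0, 0, 0], [0, 0, 3016360, 1889750], [0, 2145140, 1889750, 1183928], [0, 876853, 707976, 443547]]
lemma R4_c1 : chk1 3 3 1 1 R4_0 R4_1 = true := by decide +kernel
lemma R4_c2 : chk1 3 3 1 1 R4_1 R4_2 = true := by decide +kernel
lemma R4_c3 : chk1 3 3 1 1 R4_2 R4_3 = true := by decide +kernel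
lemma R4_cG : chk1 3 3 1 1 R4_2 R4_G = true := by decide +kernel
lemma R4_cGG : chk1 3 3 39601 40000 R4_G R4_G = true := by decide +kernel

lemma R4_0_tt : tot 3 tt R4_0 = 12074827 := by decide +kernel
lemma R4_1_tt : tot 3 tt R4_1 = 12329377 := by decide +kernel
lemma R4_2_tt : tot 3 tt R4_2 = 12266478 := by decide +kernel
lemma R4_3_tt : tot 3 tt R4_3 = 12153304 := by decide +kernel
lemma R4_G_tt : tot 3 tt R4_G = 12190651 := by decide +kernel

def R5_0 : List (List ℕ) := [[0, 0, 0, 0, 0], [0, 0, 0, 1540581, 965174], [0, 0, 1540581, 965174, 604682], [0, 1540581, 965174, 604682, 378833], [0, 965174, 604682, 378833, 237339]]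
def R5_G : List (List ℕ) := [[0, 0, 0, 0, 0], [0, 0, 0, 1739545, 1089825], [0, 0, 1402770, 1089825, 682776], [0, 865220, 730143, 531257, 332833], [0, 393368, 305916, 214999, 134697]]

lemma R5_c0 : chk0 4 4 tt R5_0 = true := by decide +kernel
def R5_1 : List (List ℕ) := [[0, 0, 0, 0, 0], [0, 0, 0, 1739545, 1089825], [0, 0, 1402770, 1089825, 682776], [0, 865220, 730143, 531257, 332833], [0, 393368, 305916, 214999, 134697]]
lemma R5_c1 : chk1 4 4 1 1 R5_0 R5_1 = true := by decide +kernel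
lemma R5_cG : chk1 4 4 1 1 R5_0 R5_G = true := by decide +kernel
lemma R5_cGG : chk1 4 4 9409 10000 R5_G R5_G = true := by decide +kernel

lemma R5_0_tt : tot 4 tt R5_0 = 11291490 := by decide +kernel
lemma R5_1_tt : tot 4 tt R5_1 = 9513174 := by decide +kernel
lemma R5_G_tt : tot 4 tt R5_G = 9513174 := by decide +kernel

def A4_0 : List (List ℕ) := [[0, 0, 0, 0, 0], [0, 0, 0, 0, 0], [0, 0, 1540581, 965174, 604682], [0, 1540581, 965174, 604682, 378833], [0, 965174, 604682, 378833, 237339]]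
def A4_1 : List (List ℕ) := [[0, 0, 0, 0, 0], [0, 0, 0, 1353513, 847976], [0, 0, 1165431, 847976, 531257], [0, 865220, 730143, 531257, 332833], [0, 393368, 305916, 214999, 134697]]
def A4_2 : List (List ℕ) := [[0, 0, 0, 0, 0], [0, 0, 0, 1271686, 796711], [0, 0, 987177, 796711, 499140], [0, 533053, 487829, 366020, 229312], [0, 221474, 183878, 132911, 83269]]
def A4_G : List (List ℕ) := [[0, 0, 0, 0, 0], [0, 0, 0, 1073366, 672464], [0, 0, 801683, 672464, 421299], [0, 371806, 364123, 280543, 175760], [0, 137657, 116412, 84774, 53111]]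

lemma A4_c0 : chk0 4 4 ge2 A4_0 = true := by decide +kernel
def A4_3 : List (List ℕ) := [[0, 0, 0, 0, 0], [0, 0, 0, 1015115, 635970], [0, 0, 767323, 635970, 398435], [0, 371806, 357988, 273363, 171262], [0, 137657, 116412, 84774, 53111]]
lemma A4_c1 : chk1 4 4 1 1 A4_0 A4_1 = true := by decide +kernel
lemma A4_c2 : chk1 4 4 1 1 A4_1 A4_2 = true := by decide +kernel
lemma A4_c3 : chk1 4 4 1 1 A4_2 A4_3 = true := by decide +kernel
lemma A4_cG : chk1 4 4 1 1 A4_2 A4_G = true := by decide +kernel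
lemma A4_cGG : chk1 4 4 3 4 A4_G A4_G = true := by decide +kernel

lemma A4_0_tt : tot 4 tt A4_0 = 8785735 := by decide +kernel
lemma A4_1_tt : tot 4 tt A4_1 = 8254586 := by decide +kernel
lemma A4_2_tt : tot 4 tt A4_2 = 6589171 := by decide +kernel
lemma A4_3_tt : tot 4 tt A4_3 = 5019186 := by decide +kernel
lemma A4_G_tt : tot 4 tt A4_G = 5225462 := by decide +kernel
lemma A4_0_ge2 : tot 4 ge2 A4_0 = 6279980 := by decide +kernel
lemma A4_1_ge2 : tot 4 ge2 A4_1 = 6995998 := by decide +kernel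
lemma A4_2_ge2 : tot 4 ge2 A4_2 = 5834644 := by decide +kernel
lemma A4_3_ge2 : tot 4 ge2 A4_3 = 4509723 := by decide +kernel
lemma A4_G_ge2 : tot 4 ge2 A4_G = 4715999 := by decide +kernel
lemma A4_0_eq1 : tot 4 eq1 A4_0 = 2505755 := by decide +kernel
lemma A4_1_eq1 : tot 4 eq1 A4_1 = 1258588 := by decide +kernel
lemma A4_2_eq1 : tot 4 eq1 A4_2 = 754527 := by decide +kernel
lemma A4_3_eq1 : tot 4 eq1 A4_3 = 509463 := by decide +kernel
lemma A4_G_eq1 : tot 4 eq1 A4_G = 509463 := by decide +kernel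

def B4_0 : List (List ℕ) := [[0, 0, 0, 0, 0], [0, 0, 0, 1540581, 965174], [0, 0, 0, 0, 0], [0, 0, 0, 0, 0], [0, 0, 0, 0, 0]]
def B4_1 : List (List ℕ) := [[0, 0, 0, 0, 0], [0, 0, 0, 386032, 241849], [0, 0, 237339, 241849, 151519], [0, 0, 0, 0, 0], [0, 0, 0, 0, 0]]
def B4_2 : List (List ℕ) := [[0, 0, 0, 0, 0], [0, 0, 0, 193896, 121476], [0, 0, 133295, 121476, 76105], [0, 36564, 46250, 38138, 23894], [0, 0, 0, 0, 0]]
def B4_G : List (List ℕ) := [[0, 0, 0, 0, 0], [0, 0, 0, 121875, 76355], [0, 0, 88249, 76355, 47836], [0, 39496, 39604, 30645, 19199], [0, 13388, 11541, 8469, 5306]]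

lemma B4_c0 : chk0 4 4 eq1 B4_0 = true := by decide +kernel
def B4_3 : List (List ℕ) := [[0, 0, 0, 0, 0], [0, 0, 0, 121875, 76355], [0, 0, 87755, 76355, 47836], [0, 33294, 36264, 28767, 18022], [0, 7993, 7314, 5488, 3438]]
lemma B4_c1 : chk1 4 4 1 1 B4_0 B4_1 = true := by decide +kernel
lemma B4_c2 : chk1 4 4 1 1 B4_1 B4_2 = true := by decide +kernel
lemma B4_c3 : chk1 4 4 1 1 B4_2 B4_3 = true := by decide +kernel
lemma B4_cG : chk1 4 4 1 1 B4_2 B4_G = true := by decide +kernel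
lemma B4_cGG : chk1 4 4 3 4 B4_G B4_G = true := by decide +kernel

lemma B4_0_tt : tot 4 tt B4_0 = 2505755 := by decide +kernel
lemma B4_1_tt : tot 4 tt B4_1 = 1258588 := by decide +kernel
lemma B4_2_tt : tot 4 tt B4_2 = 791094 := by decide +kernel
lemma B4_3_tt : tot 4 tt B4_3 = 550756 := by decide +kernel
lemma B4_G_tt : tot 4 tt B4_G = 578318 := by decide +kernel

def A5_0 : List (List ℕ) := [[0, 0, 0, 0, 0, 0], [0, 0, 0, 0, 0, 0], [0, 0, 0, 965174, 604682, 378833], [0, 0, 965174, 604682, 378833, 237339], [0, 965174, 604682, 378833, 237339, 148693], [0, 604682, 378833, 237339, 148693, 93156]]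
def A5_1 : List (List ℕ) := [[0, 0, 0, 0, 0, 0], [0, 0, 0, 0, 765590, 479642], [0, 0, 0, 682776, 479642, 300496], [0, 0, 550591, 427759, 300496, 188261], [0, 339601, 286583, 208520, 142011, 88970], [0, 154398, 120073, 84388, 56465, 35376]]
def A5_2 : List (List ℕ) := [[0, 0, 0, 0, 0, 0], [0, 0, 0, 0, 549342, 344163], [0, 0, 0, 443873, 344163, 215618], [0, 0, 275528, 231793, 168445, 105531], [0, 140071, 131332, 101182, 70810, 44363], [0, 54461, 45217, 33039, 22548, 14127]]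
def A5_G : List (List ℕ) := [[0, 0, 0, 0, 0, 0], [0, 0, 0, 0, 321944, 201698], [0, 0, 0, 252085, 201698, 126364], [0, 0, 140578, 124714, 92515, 57961], [0, 62409, 61232, 48280, 34140, 21389], [0, 22439, 19143, 14209, 9772, 6122]]

lemma A5_c0 : chk0 5 5 ge2 A5_0 = true := by decide +kernel
def A5_3 : List (List ℕ) := [[0, 0, 0, 0, 0, 0], [0, 0, 0, 0, 321944, 201698], [0, 0, 0, 252085, 201698, 126364], [0, 0, 140578, 124714, 92515, 57961], [0, 62409, 61232, 48280, 34140, 21389], [0, 22439, 19143, 14209, 9772, 6122]]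
lemma A5_c1 : chk1 5 5 1 1 A5_0 A5_1 = true := by decide +kernel
lemma A5_c2 : chk1 5 5 1 1 A5_1 A5_2 = true := by decide +kernel
lemma A5_c3 : chk1 5 5 1 1 A5_2 A5_3 = true := by decide +kernel
lemma A5_cG : chk1 5 5 1 1 A5_2 A5_G = true := by decide +kernel
lemma A5_cGG : chk1 5 5 3 5 A5_G A5_G = true := by decide +kernel

lemma A5_0_tt : tot 5 tt A5_0 = 7932141 := by decide +kernel
lemma A5_1_tt : tot 5 tt A5_1 = 5691638 := by decide +kernel
lemma A5_2_tt : tot 5 tt A5_2 = 3335606 := by decide +kernel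
lemma A5_3_tt : tot 5 tt A5_3 = 1818692 := by decide +kernel
lemma A5_G_tt : tot 5 tt A5_G = 1818692 := by decide +kernel
lemma A5_0_ge2 : tot 5 ge2 A5_0 = 6362285 := by decide +kernel
lemma A5_1_ge2 : tot 5 ge2 A5_1 = 5197639 := by decide +kernel
lemma A5_2_ge2 : tot 5 ge2 A5_2 = 3141074 := by decide +kernel
lemma A5_3_ge2 : tot 5 ge2 A5_3 = 1733844 := by decide +kernel
lemma A5_G_ge2 : tot 5 ge2 A5_G = 1733844 := by decide +kernel
lemma A5_0_eq1 : tot 5 eq1 A5_0 = 1569856 := by decide +kernel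
lemma A5_1_eq1 : tot 5 eq1 A5_1 = 493999 := by decide +kernel
lemma A5_2_eq1 : tot 5 eq1 A5_2 = 194532 := by decide +kernel
lemma A5_3_eq1 : tot 5 eq1 A5_3 = 84848 := by decide +kernel
lemma A5_G_eq1 : tot 5 eq1 A5_G = 84848 := by decide +kernel

def B5_0 : List (List ℕ) := [[0, 0, 0, 0, 0, 0], [0, 0, 0, 0, 965174, 604682], [0, 0, 0, 0, 0, 0], [0, 0, 0, 0, 0, 0], [0, 0, 0, 0, 0, 0], [0, 0, 0, 0, 0, 0]]
def B5_1 : List (List ℕ) := [[0, 0, 0, 0, 0, 0], [0, 0, 0, 0, 151519, 94927], [0, 0, 0, 93157, 94927, 59472], [0, 0, 0, 0, 0, 0], [0, 0, 0, 0, 0, 0], [0, 0, 0, 0, 0, 0]]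
def B5_2 : List (List ℕ) := [[0, 0, 0, 0, 0, 0], [0, 0, 0, 0, 47680, 29872], [0, 0, 0, 32778, 29872, 18715], [0, 0, 8992, 11374, 9379, 5876], [0, 0, 0, 0, 0, 0], [0, 0, 0, 0, 0, 0]]
def B5_G : List (List ℕ) := [[0, 0, 0, 0, 0, 0], [0, 0, 0, 0, 18777, 11764], [0, 0, 0, 13520, 11764, 7370], [0, 0, 5130, 5587, 4432, 2777], [0, 1435, 1627, 1374, 1000, 627], [0, 382, 343, 262, 183, 115]]

lemma B5_c0 : chk0 5 5 eq1 B5_0 = true := by decide +kernel
def B5_3 : List (List ℕ) := [[0, 0, 0, 0, 0, 0], [0, 0, 0, 0, 18777, 11764], [0, 0, 0, 13520, 11764, 7370], [0, 0, 5130, 5587, 4432, 2777], [0, 868, 1232, 1127, 846, 530], [0, 0, 0, 0, 0, 0]]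
lemma B5_c1 : chk1 5 5 1 1 B5_0 B5_1 = true := by decide +kernel
lemma B5_c2 : chk1 5 5 1 1 B5_1 B5_2 = true := by decide +kernel
lemma B5_c3 : chk1 5 5 1 1 B5_2 B5_3 = true := by decide +kernel
lemma B5_cG : chk1 5 5 1 1 B5_2 B5_G = true := by decide +kernel
lemma B5_cGG : chk1 5 5 3 5 B5_G B5_G = true := by decide +kernel

lemma B5_0_tt : tot 5 tt B5_0 = 1569856 := by decide +kernel
lemma B5_1_tt : tot 5 tt B5_1 = 494002 := by decide +kernel
lemma B5_2_tt : tot 5 tt B5_2 = 194538 := by decide +kernel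
lemma B5_3_tt : tot 5 tt B5_3 = 85724 := by decide +kernel
lemma B5_G_tt : tot 5 tt B5_G = 88469 := by decide +kernel

end Helper6.NS
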