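import Pool.Agent.Helper6.NS.Tables
import Pool.Agent.Helper6.NS.Sums

/-! Values of the path sums. -/

namespace Helper6.NS
open Finset Helper23.NS

lemma R4_p0 (u v : ℕ) : pv y 3 3 tt 0 u v ≤ 1 * ((lk R4_0 u v : ℝ) / DD) := by
  simpa using pv_le0 R4_c0 u v
lemma R4_p1 (u v : ℕ) : pv y 3 3 tt 1 u v ≤ 1 * ((lk R4_1 u v : ℝ) / DD) := by
  simpa using pv_step R4_c1 one_pos zero_le_one R4_p0 u v
lemma R4_p2 (u v : ℕ) : pv y 3 3 tt 2 u v ≤ 1 * ((lk R4_2 u v : ℝ) / DD) := by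
  simpa using pv_step R4_c2 one_pos zero_le_one R4_p1 u v
lemma R4_p3 (u v : ℕ) : pv y 3 3 tt 3 u v ≤ 1 * ((lk R4_3 u v : ℝ) / DD) := by
  simpa using pv_step R4_c3 one_pos zero_le_one R4_p2 u v
lemma R4_pG (u v : ℕ) : pv y 3 3 tt 3 u v ≤ (lk R4_G u v : ℝ) / DD := by
  simpa using pv_step R4_cG one_pos zero_le_one R4_p2 u v
lemma R4_pg (j : ℕ) : ∀ u v, pv y 3 3 tt (3 + j) u v ≤ ((39601 : ℝ) / 40000) ^ j * ((lk R4_G u v : ℝ) / DD) := by
  have := pv_geom R4_cGG (by norm_num) R4_pG j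
  exact_mod_cast this

lemma R5_p0 (u v : ℕ) : pv y 4 4 tt 0 u v ≤ 1 * ((lk R5_0 u v : ℝ) / DD) := by
  simpa using pv_le0 R5_c0 u v
lemma R5_p1 (u v : ℕ) : pv y 4 4 tt 1 u v ≤ 1 * ((lk R5_1 u v : ℝ) / DD) := by
  simpa using pv_step R5_c1 one_pos zero_le_one R5_p0 u v
lemma R5_pG (u v : ℕ) : pv y 4 4 tt 1 u v ≤ (lk R5_G u v : ℝ) / DD := by
  simpa using pv_step R5_cG one_pos zero_le_one R5_p0 u v
lemma R5_pg (j : ℕ) : ∀ u v, pv y 4 4 tt (1 + j) u v ≤ ((9409 : ℝ) / 10000) ^ j * ((lk R5_G u v : ℝ) / DD) := by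
  have := pv_geom R5_cGG (by norm_num) R5_pG j
  exact_mod_cast this

lemma A4_p0 (u v : ℕ) : pv y 4 4 ge2 0 u v ≤ 1 * ((lk A4_0 u v : ℝ) / DD) := by
  simpa using pv_le0 A4_c0 u v
lemma A4_p1 (u v : ℕ) : pv y 4 4 ge2 1 u v ≤ 1 * ((lk A4_1 u v : ℝ) / DD) := by
  simpa using pv_step A4_c1 one_pos zero_le_one A4_p0 u v
lemma A4_p2 (u v : ℕ) : pv y 4 4 ge2 2 u v ≤ 1 * ((lk A4_2 u v : ℝ) / DD) := by
  simpa using pv_step A4_c2 one_pos zero_le_one A4_p1 u v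
lemma A4_p3 (u v : ℕ) : pv y 4 4 ge2 3 u v ≤ 1 * ((lk A4_3 u v : ℝ) / DD) := by
  simpa using pv_step A4_c3 one_pos zero_le_one A4_p2 u v
lemma A4_pG (u v : ℕ) : pv y 4 4 ge2 3 u v ≤ (lk A4_G u v : ℝ) / DD := by
  simpa using pv_step A4_cG one_pos zero_le_one A4_p2 u v
lemma A4_pg (j : ℕ) : ∀ u v, pv y 4 4 ge2 (3 + j) u v ≤ ((3 : ℝ) / 4) ^ j * ((lk A4_G u v : ℝ) / DD) := by
  have := pv_geom A4_cGG (by norm_num) A4_pG j
  exact_mod_cast this

lemma B4_p0 (u v : ℕ) : pv y 4 4 eq1 0 u v ≤ 1 * ((lk B4_0 u v : ℝ) / DD) := by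
  simpa using pv_le0 B4_c0 u v
lemma B4_p1 (u v : ℕ) : pv y 4 4 eq1 1 u v ≤ 1 * ((lk B4_1 u v : ℝ) / DD) := by
  simpa using pv_step B4_c1 one_pos zero_le_one B4_p0 u v
lemma B4_p2 (u v : ℕ) : pv y 4 4 eq1 2 u v ≤ 1 * ((lk B4_2 u v : ℝ) / DD) := by
  simpa using pv_step B4_c2 one_pos zero_le_one B4_p1 u v
lemma B4_p3 (u v : ℕ) : pv y 4 4 eq1 3 u v ≤ 1 * ((lk B4_3 u v : ℝ) / DD) := by
  simpa using pv_step B4_c3 one_pos zero_le_one B4_p2 u v
lemma B4_pG (u v : ℕ) : pv y 4 4 eq1 3 u v ≤ (lk B4_G u v : ℝ) / DD := by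
  simpa using pv_step B4_cG one_pos zero_le_one B4_p2 u v
lemma B4_pg (j : ℕ) : ∀ u v, pv y 4 4 eq1 (3 + j) u v ≤ ((3 : ℝ) / 4) ^ j * ((lk B4_G u v : ℝ) / DD) := by
  have := pv_geom B4_cGG (by norm_num) B4_pG j
  exact_mod_cast this

lemma A5_p0 (u v : ℕ) : pv y 5 5 ge2 0 u v ≤ 1 * ((lk A5_0 u v : ℝ) / DD) := by
  simpa using pv_le0 A5_c0 u v
lemma A5_p1 (u v : ℕ) : pv y 5 5 ge2 1 u v ≤ 1 * ((lk A5_1 u v : ℝ) / DD) := by
  simpa using pv_step A5_c1 one_pos zero_le_one A5_p0 u v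
lemma A5_p2 (u v : ℕ) : pv y 5 5 ge2 2 u v ≤ 1 * ((lk A5_2 u v : ℝ) / DD) := by
  simpa using pv_step A5_c2 one_pos zero_le_one A5_p1 u v
lemma A5_p3 (u v : ℕ) : pv y 5 5 ge2 3 u v ≤ 1 * ((lk A5_3 u v : ℝ) / DD) := by
  simpa using pv_step A5_c3 one_pos zero_le_one A5_p2 u v
lemma A5_pG (u v : ℕ) : pv y 5 5 ge2 3 u v ≤ (lk A5_G u v : ℝ) / DD := by
  simpa using pv_step A5_cG one_pos zero_le_one A5_p2 u v
lemma A5_pg (j : ℕ) : ∀ u v, pv y 5 5 ge2 (3 + j) u v ≤ ((3 : ℝ) / 5) ^ j * ((lk A5_G u v : ℝ) / DD) := by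
  have := pv_geom A5_cGG (by norm_num) A5_pG j
  exact_mod_cast this

lemma B5_p0 (u v : ℕ) : pv y 5 5 eq1 0 u v ≤ 1 * ((lk B5_0 u v : ℝ) / DD) := by
  simpa using pv_le0 B5_c0 u v
lemma B5_p1 (u v : ℕ) : pv y 5 5 eq1 1 u v ≤ 1 * ((lk B5_1 u v : ℝ) / DD) := by
  simpa using pv_step B5_c1 one_pos zero_le_one B5_p0 u v
lemma B5_p2 (u v : ℕ) : pv y 5 5 eq1 2 u v ≤ 1 * ((lk B5_2 u v : ℝ) / DD) := by
  simpa using pv_step B5_c2 one_pos zero_le_one B5_p1 u v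
lemma B5_p3 (u v : ℕ) : pv y 5 5 eq1 3 u v ≤ 1 * ((lk B5_3 u v : ℝ) / DD) := by
  simpa using pv_step B5_c3 one_pos zero_le_one B5_p2 u v
lemma B5_pG (u v : ℕ) : pv y 5 5 eq1 3 u v ≤ (lk B5_G u v : ℝ) / DD := by
  simpa using pv_step B5_cG one_pos zero_le_one B5_p2 u v
lemma B5_pg (j : ℕ) : ∀ u v, pv y 5 5 eq1 (3 + j) u v ≤ ((3 : ℝ) / 5) ^ j * ((lk B5_G u v : ℝ) / DD) := by
  have := pv_geom B5_cGG (by norm_num) B5_pG j
  exact_mod_cast this

lemma P114_1 : P11 y 4 1 ≤ 6279980 / 10000000 := by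
  have := PP_le (T2 := ge2) (z := 1) A4_p0
  rw [A4_0_ge2] at this
  unfold P11
  simpa [DD] using this
lemma P114_2 : P11 y 4 2 ≤ 6995998 / 10000000 := by
  have := PP_le (T2 := ge2) (z := 1) A4_p1
  rw [A4_1_ge2] at this
  unfold P11
  simpa [DD] using this
lemma P114_3 : P11 y 4 3 ≤ 5834644 / 10000000 := by
  have := PP_le (T2 := ge2) (z := 1) A4_p2
  rw [A4_2_ge2] at this
  unfold P11
  simpa [DD] using this
lemma P114_4 : P11 y 4 4 ≤ 4509723 / 10000000 := by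
  have := PP_le (T2 := ge2) (z := 1) A4_p3
  rw [A4_3_ge2] at this
  unfold P11
  simpa [DD] using this
lemma P114_g (j : ℕ) : P11 y 4 (4 + j) ≤ ((3 : ℝ) / 4) ^ j * (4715999 / 10000000) := by
  have := PP_le (T2 := ge2) (z := 1) (A4_pg j)
  rw [A4_G_ge2] at this
  unfold P11
  rw [show 4 + j = 3 + j + 1 by ring]
  simpa [DD] using this
lemma P124_1 : P12 y 4 1 ≤ 2505755 / 10000000 := by
  have := PP_le (T2 := eq1) (z := 0) A4_p0
  rw [A4_0_eq1] at this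
  unfold P12
  simpa [DD] using this
lemma P124_2 : P12 y 4 2 ≤ 1258588 / 10000000 := by
  have := PP_le (T2 := eq1) (z := 0) A4_p1
  rw [A4_1_eq1] at this
  unfold P12
  simpa [DD] using this
lemma P124_3 : P12 y 4 3 ≤ 754527 / 10000000 := by
  have := PP_le (T2 := eq1) (z := 0) A4_p2
  rw [A4_2_eq1] at this
  unfold P12
  simpa [DD] using this
lemma P124_4 : P12 y 4 4 ≤ 509463 / 10000000 := by
  have := PP_le (T2 := eq1) (z := 0) A4_p3
  rw [A4_3_eq1] at this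
  unfold P12
  simpa [DD] using this
lemma P124_g (j : ℕ) : P12 y 4 (4 + j) ≤ ((3 : ℝ) / 4) ^ j * (509463 / 10000000) := by
  have := PP_le (T2 := eq1) (z := 0) (A4_pg j)
  rw [A4_G_eq1] at this
  unfold P12
  rw [show 4 + j = 3 + j + 1 by ring]
  simpa [DD] using this
lemma F14_1 : F1 y 4 1 ≤ 8785735 / 10000000 := by
  have := PP_le (T2 := tt) (z := 1) A4_p0
  rw [A4_0_tt] at this
  unfold F1
  simpa [DD] using this
lemma F14_2 : F1 y 4 2 ≤ 8254586 / 10000000 := by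
  have := PP_le (T2 := tt) (z := 1) A4_p1
  rw [A4_1_tt] at this
  unfold F1
  simpa [DD] using this
lemma F14_3 : F1 y 4 3 ≤ 6589171 / 10000000 := by
  have := PP_le (T2 := tt) (z := 1) A4_p2
  rw [A4_2_tt] at this
  unfold F1
  simpa [DD] using this
lemma F14_4 : F1 y 4 4 ≤ 5019186 / 10000000 := by
  have := PP_le (T2 := tt) (z := 1) A4_p3
  rw [A4_3_tt] at this
  unfold F1
  simpa [DD] using this
lemma F14_g (j : ℕ) : F1 y 4 (4 + j) ≤ ((3 : ℝ) / 4) ^ j * (5225462 / 10000000) := by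
  have := PP_le (T2 := tt) (z := 1) (A4_pg j)
  rw [A4_G_tt] at this
  unfold F1
  rw [show 4 + j = 3 + j + 1 by ring]
  simpa [DD] using this
lemma F24_1 : F2 y 4 1 ≤ 2505755 / 10000000 := by
  have := PP_le (T2 := tt) (z := 0) B4_p0
  rw [B4_0_tt] at this
  unfold F2
  simpa [DD] using this
lemma F24_2 : F2 y 4 2 ≤ 1258588 / 10000000 := by
  have := PP_le (T2 := tt) (z := 0) B4_p1
  rw [B4_1_tt] at this
  unfold F2
  simpa [DD] using this
lemma F24_3 : F2 y 4 3 ≤ 791094 / 10000000 := by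
  have := PP_le (T2 := tt) (z := 0) B4_p2
  rw [B4_2_tt] at this
  unfold F2
  simpa [DD] using this
lemma F24_4 : F2 y 4 4 ≤ 550756 / 10000000 := by
  have := PP_le (T2 := tt) (z := 0) B4_p3
  rw [B4_3_tt] at this
  unfold F2
  simpa [DD] using this
lemma F24_g (j : ℕ) : F2 y 4 (4 + j) ≤ ((3 : ℝ) / 4) ^ j * (578318 / 10000000) := by
  have := PP_le (T2 := tt) (z := 0) (B4_pg j)
  rw [B4_G_tt] at this
  unfold F2
  rw [show 4 + j = 3 + j + 1 by ring]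
  simpa [DD] using this
lemma P115_1 : P11 y 5 1 ≤ 6362285 / 10000000 := by
  have := PP_le (T2 := ge2) (z := 1) A5_p0
  rw [A5_0_ge2] at this
  unfold P11
  simpa [DD] using this
lemma P115_2 : P11 y 5 2 ≤ 5197639 / 10000000 := by
  have := PP_le (T2 := ge2) (z := 1) A5_p1
  rw [A5_1_ge2] at this
  unfold P11
  simpa [DD] using this
lemma P115_3 : P11 y 5 3 ≤ 3141074 / 10000000 := by
  have := PP_le (T2 := ge2) (z := 1) A5_p2
  rw [A5_2_ge2] at this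
  unfold P11
  simpa [DD] using this
lemma P115_4 : P11 y 5 4 ≤ 1733844 / 10000000 := by
  have := PP_le (T2 := ge2) (z := 1) A5_p3
  rw [A5_3_ge2] at this
  unfold P11
  simpa [DD] using this
lemma P115_g (j : ℕ) : P11 y 5 (4 + j) ≤ ((3 : ℝ) / 5) ^ j * (1733844 / 10000000) := by
  have := PP_le (T2 := ge2) (z := 1) (A5_pg j)
  rw [A5_G_ge2] at this
  unfold P11
  rw [show 4 + j = 3 + j + 1 by ring]
  simpa [DD] using this
lemma P125_1 : P12 y 5 1 ≤ 1569856 / 10000000 := by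
  have := PP_le (T2 := eq1) (z := 0) A5_p0
  rw [A5_0_eq1] at this
  unfold P12
  simpa [DD] using this
lemma P125_2 : P12 y 5 2 ≤ 493999 / 10000000 := by
  have := PP_le (T2 := eq1) (z := 0) A5_p1
  rw [A5_1_eq1] at this
  unfold P12
  simpa [DD] using this
lemma P125_3 : P12 y 5 3 ≤ 194532 / 10000000 := by
  have := PP_le (T2 := eq1) (z := 0) A5_p2
  rw [A5_2_eq1] at this
  unfold P12
  simpa [DD] using this
lemma P125_4 : P12 y 5 4 ≤ 84848 / 10000000 := by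
  have := PP_le (T2 := eq1) (z := 0) A5_p3
  rw [A5_3_eq1] at this
  unfold P12
  simpa [DD] using this
lemma P125_g (j : ℕ) : P12 y 5 (4 + j) ≤ ((3 : ℝ) / 5) ^ j * (84848 / 10000000) := by
  have := PP_le (T2 := eq1) (z := 0) (A5_pg j)
  rw [A5_G_eq1] at this
  unfold P12
  rw [show 4 + j = 3 + j + 1 by ring]
  simpa [DD] using this
lemma F15_1 : F1 y 5 1 ≤ 7932141 / 10000000 := by
  have := PP_le (T2 := tt) (z := 1) A5_p0
  rw [A5_0_tt] at this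
  unfold F1
  simpa [DD] using this
lemma F15_2 : F1 y 5 2 ≤ 5691638 / 10000000 := by
  have := PP_le (T2 := tt) (z := 1) A5_p1
  rw [A5_1_tt] at this
  unfold F1
  simpa [DD] using this
lemma F15_3 : F1 y 5 3 ≤ 3335606 / 10000000 := by
  have := PP_le (T2 := tt) (z := 1) A5_p2
  rw [A5_2_tt] at this
  unfold F1
  simpa [DD] using this
lemma F15_4 : F1 y 5 4 ≤ 1818692 / 10000000 := by
  have := PP_le (T2 := tt) (z := 1) A5_p3
  rw [A5_3_tt] at this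
  unfold F1
  simpa [DD] using this
lemma F15_g (j : ℕ) : F1 y 5 (4 + j) ≤ ((3 : ℝ) / 5) ^ j * (1818692 / 10000000) := by
  have := PP_le (T2 := tt) (z := 1) (A5_pg j)
  rw [A5_G_tt] at this
  unfold F1
  rw [show 4 + j = 3 + j + 1 by ring]
  simpa [DD] using this
lemma F25_1 : F2 y 5 1 ≤ 1569856 / 10000000 := by
  have := PP_le (T2 := tt) (z := 0) B5_p0
  rw [B5_0_tt] at this
  unfold F2
  simpa [DD] using this
lemma F25_2 : F2 y 5 2 ≤ 494002 / 10000000 := by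
  have := PP_le (T2 := tt) (z := 0) B5_p1
  rw [B5_1_tt] at this
  unfold F2
  simpa [DD] using this
lemma F25_3 : F2 y 5 3 ≤ 194538 / 10000000 := by
  have := PP_le (T2 := tt) (z := 0) B5_p2
  rw [B5_2_tt] at this
  unfold F2
  simpa [DD] using this
lemma F25_4 : F2 y 5 4 ≤ 85724 / 10000000 := by
  have := PP_le (T2 := tt) (z := 0) B5_p3
  rw [B5_3_tt] at this
  unfold F2
  simpa [DD] using this
lemma F25_g (j : ℕ) : F2 y 5 (4 + j) ≤ ((3 : ℝ) / 5) ^ j * (88469 / 10000000) := by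
  have := PP_le (T2 := tt) (z := 0) (B5_pg j)
  rw [B5_G_tt] at this
  unfold F2
  rw [show 4 + j = 3 + j + 1 by ring]
  simpa [DD] using this
lemma PR4_1 : PR y 4 1 ≤ 12074827 / 10000000 := by
  have := PP_le (T2 := tt) (z := 1) R4_p0
  rw [R4_0_tt] at this
  unfold PR
  simpa [DD] using this
lemma PR4_2 : PR y 4 2 ≤ 12329377 / 10000000 := by
  have := PP_le (T2 := tt) (z := 1) R4_p1
  rw [R4_1_tt] at this
  unfold PR
  simpa [DD] using this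
lemma PR4_3 : PR y 4 3 ≤ 12266478 / 10000000 := by
  have := PP_le (T2 := tt) (z := 1) R4_p2
  rw [R4_2_tt] at this
  unfold PR
  simpa [DD] using this
lemma PR4_4 : PR y 4 4 ≤ 12153304 / 10000000 := by
  have := PP_le (T2 := tt) (z := 1) R4_p3
  rw [R4_3_tt] at this
  unfold PR
  simpa [DD] using this
lemma PR4_g (j : ℕ) : PR y 4 (4 + j) ≤ ((39601 : ℝ) / 40000) ^ j * (12190651 / 10000000) := by
  have := PP_le (T2 := tt) (z := 1) (R4_pg j)
  rw [R4_G_tt] at this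
  unfold PR
  rw [show 4 + j = 3 + j + 1 by ring]
  simpa [DD] using this
lemma PR5_1 : PR y 5 1 ≤ 11291490 / 10000000 := by
  have := PP_le (T2 := tt) (z := 1) R5_p0
  rw [R5_0_tt] at this
  unfold PR
  simpa [DD] using this
lemma PR5_2 : PR y 5 2 ≤ 9513174 / 10000000 := by
  have := PP_le (T2 := tt) (z := 1) R5_p1
  rw [R5_1_tt] at this
  unfold PR
  simpa [DD] using this
lemma PR5_g (j : ℕ) : PR y 5 (2 + j) ≤ ((9409 : ℝ) / 10000) ^ j * (9513174 / 10000000) := by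
  have := PP_le (T2 := tt) (z := 1) (R5_pg j)
  rw [R5_G_tt] at this
  unfold PR
  rw [show 2 + j = 1 + j + 1 by ring]
  simpa [DD] using this

end Helper6.NS
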